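import Pool.Agent.AcylTdc3.Comb

/-! Combinatorial assembly for direct products, second part. -/

open Filter Topology Set Pool.Agent.TwistedRatio Pool.Agent.AcylTdc

namespace Pool.Agent.AcylTdc3

variable {ι : Type*} [Fintype ι] [DecidableEq ι] {H : ι → Type*} [∀ i, Group (H i)]

/-- a chosen word -/
theorem exists_word (X : Set (∀ i, H i)) (n : ℕ) :
    ∃ w : (∀ i, H i) → List (∀ i, H i), ∀ g ∈ ball X n,
      (w g).length ≤ n ∧ (∀ s ∈ w g, s ∈ X ∨ s⁻¹ ∈ X) ∧ (w g).prod = g := by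
  classical
  refine ⟨fun g => if h : g ∈ ball X n then h.choose else [], fun g hg => ?_⟩
  simp only [hg, dif_pos]
  exact (show g ∈ ball X n from hg).choose_spec

/-- pairs with types `I`, `J` having a common element -/
theorem pair_common {X : Set (∀ i, H i)} (hX : X.Finite) (φ : (∀ i, H i) →* (∀ i, H i)) (i : ι)
    {F F' : H i} {E : Set (H i)} {N N₀ : ℕ} (P : Pack (H i) F F' E N N₀) (V n : ℕ) {ε : ℝ}
    (hε : 0 < ε) (hb : 1 ≤ ε * (ball X n).ncard)
    (hV : ∀ S_H : Set (H i), Mult F S_H N₀ → Mult F' S_H N₀ →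
      ∀ S : Set (∀ i, H i), (∀ g ∈ S, g i ∈ S_H ∧ ∃ l : List (∀ i, H i), l.length ≤ n ∧
        (∀ s ∈ l, s ∈ X ∨ s⁻¹ ∈ X) ∧ l.prod = g ∧ V < (visited (Pi.evalMonoidHom H i) l).ncard) →
      (S.ncard : ℝ) ≤ ε * (ball X n).ncard)
    (w : (∀ i, H i) → List (∀ i, H i)) (hw : ∀ g ∈ ball X n,
      (w g).length ≤ n ∧ (∀ s ∈ w g, s ∈ X ∨ s⁻¹ ∈ X) ∧ (w g).prod = g)
    (T₁ T₂ : Set (∀ i, H i))
    (hT₁ : ∀ g ∈ T₁, V < (visited (Pi.evalMonoidHom H i) (w g)).ncard)
    (hT₂ : ∀ g ∈ T₂, V < (visited (Pi.evalMonoidHom H i) (w g)).ncard) :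
    ((({p : (∀ i, H i) × (∀ i, H i) | p.1 ∈ ball X n ∧ p.2 ∈ ball X n ∧ p.1 ∈ T₁ ∧ p.2 ∈ T₂ ∧
      p.1 * p.2 = p.2 * φ p.1}).ncard : ℝ) / ((ball X n).ncard : ℝ) ^ 2) ^ (N + 1) ≤
      ε * (1 + 2 * ((N : ℝ) + 1) ^ 2) := by
  classical
  set B : Finset (∀ i, H i) := (ball_finite hX n).toFinset with hBdef
  have hBmem : ∀ g, g ∈ B ↔ g ∈ ball X n := fun g => by rw [hBdef, Set.Finite.mem_toFinset]
  have hBcard : (ball X n).ncard = B.card := Set.ncard_eq_toFinset_card _ (ball_finite hX n)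
  have hBpos : 0 < B.card := by rw [← hBcard]; exact ncard_ball_pos hX n
  have hBposR : (0 : ℝ) < (B.card : ℝ) := by exact_mod_cast hBpos
  set R : (∀ i, H i) → (∀ i, H i) → Prop := fun x y => x ∈ T₁ ∧ y ∈ T₂ ∧ x * y = y * φ x with hR
  have hpairs : ({p : (∀ i, H i) × (∀ i, H i) | p.1 ∈ ball X n ∧ p.2 ∈ ball X n ∧ p.1 ∈ T₁ ∧
      p.2 ∈ T₂ ∧ p.1 * p.2 = p.2 * φ p.1}).ncard =
      ((B ×ˢ B).filter (fun p => R p.1 p.2)).card := by
    rw [← Set.ncard_coe_finset]
    congr 1
    ext p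
    simp only [Set.mem_setOf_eq, Finset.coe_filter, Finset.mem_product, hBmem, hR]
    tauto
  let π : (∀ i, H i) → H i ⊕ (∀ i, H i) := fun x => if x ∈ T₁ then Sum.inl (x i) else Sum.inr x
  set t : ℕ := ⌊ε * B.card⌋₊ + 1 with ht
  have hB1 : 1 ≤ ε * (B.card : ℝ) := by rw [← hBcard]; exact hb
  have htle : (t : ℝ) ≤ 2 * (ε * B.card) := by
    have := Nat.floor_le (show 0 ≤ ε * (B.card : ℝ) by positivity)
    rw [ht]
    push_cast
    linarith
  have hmain := count_ineq π B t (by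
    intro b
    rcases b with c | g
    · -- spread elements with given coordinate
      have h1 := hV {c} (mult_singleton F c P.pos) (mult_singleton F' c P.pos)
        {z | z ∈ ball X n ∧ z ∈ T₁ ∧ z i = c} (by
          rintro z ⟨hz, hzT, hzc⟩
          exact ⟨hzc, w z, (hw z hz).1, (hw z hz).2.1, (hw z hz).2.2, hT₁ z hzT⟩)
      rw [hBcard] at h1
      have h2 : (B.filter (fun z => π z = Sum.inl c)).card ≤
          ({z | z ∈ ball X n ∧ z ∈ T₁ ∧ z i = c}).ncard := by
        rw [← Set.ncard_coe_finset]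
        refine Set.ncard_le_ncard ?_ ((ball_finite hX n).subset fun z hz => hz.1)
        intro z hz
        obtain ⟨hz1, hz2⟩ := Finset.mem_filter.1 (Finset.mem_coe.1 hz)
        by_cases hzT : z ∈ T₁
        · simp only [π, hzT, if_true] at hz2
          exact ⟨(hBmem z).1 hz1, hzT, Sum.inl_injective hz2⟩
        · simp [π, hzT] at hz2
      have h3 : (B.filter (fun z => π z = Sum.inl c)).card ≤ ⌊ε * B.card⌋₊ := by
        refine Nat.le_floor ?_
        refine le_trans ?_ h1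
        exact_mod_cast h2
      omega
    · have h2 : (B.filter (fun z => π z = Sum.inr g)).card ≤ 1 := by
        refine Finset.card_le_one.2 ?_
        intro a ha a' ha'
        have h3 := (Finset.mem_filter.1 ha).2
        have h4 := (Finset.mem_filter.1 ha').2
        by_cases haT : a ∈ T₁
        · simp [π, haT] at h3
        · by_cases haT' : a' ∈ T₁
          · simp [π, haT'] at h4
          · simp only [π, haT, haT', if_false] at h3 h4
            exact (Sum.inr_injective h3).trans (Sum.inr_injective h4).symm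
      omega)
    R N ε hε.le hBpos (by
    intro S hSi hS
    rcases Set.eq_empty_or_nonempty {y | y ∈ ball X n ∧ ∀ x ∈ S, R x y} with h0 | ⟨y₀, hy₀⟩
    · have : (B.filter (fun y => ∀ x ∈ S, R x y)) = ∅ := by
        rw [Finset.eq_empty_iff_forall_notMem]
        intro y hy
        obtain ⟨hy1, hy2⟩ := Finset.mem_filter.1 hy
        have : y ∈ ({y | y ∈ ball X n ∧ ∀ x ∈ S, R x y} : Set _) := ⟨(hBmem y).1 hy1, hy2⟩
        rw [h0] at this
        exact this
      rw [this]
      simp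
      positivity
    · have hST : ∀ x ∈ S, x ∈ T₁ := fun x hx => (hy₀.2 x hx).1
      have hSi' : Set.InjOn (fun x : ∀ i, H i => x i) S := by
        intro x hx y hy hxy
        refine hSi hx hy ?_
        simp only [π, hST x hx, hST y hy, if_true]
        exact congrArg Sum.inl hxy
      set S₁ : Finset (H i) := S.image fun x => x i with hS₁
      have hcard : S₁.card = S.card := Finset.card_image_of_injOn hSi'
      have hm := P.mult S₁ (by omega) (y₀ i)
      have h1 := hV _ hm.1 hm.2 {y | y ∈ ball X n ∧ ∀ x ∈ S, R x y} (by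
        rintro y ⟨hy, hyR⟩
        have hSne : S.Nonempty := by
          rw [← Finset.card_pos]
          omega
        obtain ⟨x₀, hx₀⟩ := hSne
        have hyT : y ∈ T₂ := (hyR x₀ hx₀).2.1
        refine ⟨?_, w y, (hw y hy).1, (hw y hy).2.1, (hw y hy).2.2, hT₂ y hyT⟩
        intro a ha
        obtain ⟨x, hx, rfl⟩ := Finset.mem_image.1 ha
        have e1 := (hyR x hx).2.2
        have e2 := (hy₀.2 x hx).2.2
        have e3 : φ x = y₀⁻¹ * (x * y₀) := by rw [e2]; group
        rw [e3] at e1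
        have e4 : (y * y₀⁻¹) * x = x * (y * y₀⁻¹) := by
          calc (y * y₀⁻¹) * x = (y * (y₀⁻¹ * (x * y₀))) * y₀⁻¹ := by group
            _ = (x * y) * y₀⁻¹ := by rw [← e1]
            _ = x * (y * y₀⁻¹) := by group
        exact congrFun e4 i)
      rw [hBcard] at h1
      refine le_trans (le_of_eq ?_) h1
      congr 1
      rw [← Set.ncard_coe_finset]
      congr 1
      ext y
      simp only [Set.mem_setOf_eq, Finset.coe_filter, hBmem])
  rw [hpairs, hBcard]
  refine hmain.trans ?_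
  have h3 : (t : ℝ) / B.card ≤ 2 * ε := by
    rw [div_le_iff₀ hBposR]
    linarith
  have h4 : ((N : ℝ) + 1) ^ 2 * ((t : ℝ) / B.card) ≤ ((N : ℝ) + 1) ^ 2 * (2 * ε) :=
    mul_le_mul_of_nonneg_left h3 (by positivity)
  linarith

end Pool.Agent.AcylTdc3
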