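import Pool.Agent.AcylTdc3.Ins

/-! The counting inequality (copy of the one in AcylTdc2.Count). -/

open Filter Topology Set Pool.Agent.TwistedRatio Pool.Agent.AcylTdc

namespace Pool.Agent.AcylTdc3

private lemma card_pair_eq {α β : Type*} [DecidableEq α] [DecidableEq β] (π : α → β)
    (B : Finset α) (t : ℕ) (ht : ∀ b : β, (B.filter (fun z => π z = b)).card ≤ t) (k : ℕ)
    {i j : Fin (k + 1)} (hij : i ≠ j) :
    ((Fintype.piFinset (fun _ : Fin (k + 1) => B)).filter (fun x => π (x i) = π (x j))).card ≤
      t * B.card ^ k := by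
  have h : (Fintype.piFinset (fun _ : Fin k => B)).card = B.card ^ k := by
    simp
  rw [← h]
  refine Finset.card_le_mul_card_image_of_maps_to (f := fun x => Fin.removeNth j x) ?_ t ?_
  · intro x hx
    have hx1 := Fintype.mem_piFinset.1 (Finset.mem_filter.1 hx).1
    rw [Fintype.mem_piFinset]
    intro s
    exact hx1 _
  · intro b _
    obtain ⟨s, hs⟩ := Fin.exists_succAbove_eq hij
    refine le_trans ?_ (ht (π (b s)))
    refine Finset.card_le_card_of_injOn (fun x => x j) ?_ ?_
    · intro x hx
      obtain ⟨hx1, hx2⟩ := Finset.mem_filter.1 (Finset.mem_coe.1 hx)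
      obtain ⟨hx3, hx4⟩ := Finset.mem_filter.1 hx1
      refine Finset.mem_coe.2 (Finset.mem_filter.2 ⟨Fintype.mem_piFinset.1 hx3 j, ?_⟩)
      have e : b s = x i := by
        rw [← hx2, ← hs]
        rfl
      rw [e]
      exact hx4.symm
    · intro x hx y hy hxy
      obtain ⟨hx1, hx2⟩ := Finset.mem_filter.1 (Finset.mem_coe.1 hx)
      obtain ⟨hy1, hy2⟩ := Finset.mem_filter.1 (Finset.mem_coe.1 hy)
      funext r
      by_cases hr : r = j
      · subst hr; exact hxy
      · obtain ⟨q, rfl⟩ := Fin.exists_succAbove_eq hr
        exact congrFun (hx2.trans hy2.symm) q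

private lemma card_not_inj {α β : Type*} [DecidableEq α] [DecidableEq β] (π : α → β)
    (B : Finset α) (t : ℕ) (ht : ∀ b : β, (B.filter (fun z => π z = b)).card ≤ t) (k : ℕ) :
    ((Fintype.piFinset (fun _ : Fin (k + 1) => B)).filter
      (fun x => ¬ Function.Injective fun i => π (x i))).card ≤ (k + 1) ^ 2 * (t * B.card ^ k) := by
  have hsub : ((Fintype.piFinset (fun _ : Fin (k + 1) => B)).filter
      (fun x => ¬ Function.Injective fun i => π (x i))) ⊆
      (((Finset.univ : Finset (Fin (k + 1) × Fin (k + 1))).filter (fun p => p.1 ≠ p.2)).biUnion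
        (fun p => (Fintype.piFinset (fun _ : Fin (k + 1) => B)).filter
          (fun x => π (x p.1) = π (x p.2)))) := by
    intro x hx
    obtain ⟨hx1, hx2⟩ := Finset.mem_filter.1 hx
    rw [Function.not_injective_iff] at hx2
    obtain ⟨i, j, hij, hne⟩ := hx2
    refine Finset.mem_biUnion.2 ⟨(i, j), ?_, ?_⟩
    · simpa using hne
    · exact Finset.mem_filter.2 ⟨hx1, hij⟩
  refine (Finset.card_le_card hsub).trans ?_
  refine (Finset.card_biUnion_le_card_mul _ _ (t * B.card ^ k) ?_).trans ?_
  · intro p hp
    exact card_pair_eq π B t ht k (Finset.mem_filter.1 hp).2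
  · refine Nat.mul_le_mul_right _ ?_
    refine (Finset.card_filter_le _ _).trans ?_
    simp [sq]

/-- The counting inequality. -/
theorem count_ineq {α β : Type*} [DecidableEq α] [DecidableEq β] (π : α → β)
    (B : Finset α) (t : ℕ) (ht : ∀ b : β, (B.filter (fun z => π z = b)).card ≤ t)
    (R : α → α → Prop)
    [∀ x y, Decidable (R x y)] (k : ℕ) (e : ℝ) (he : 0 ≤ e) (hB : 0 < B.card)
    (H : ∀ S : Finset α, Set.InjOn π S → k + 1 ≤ S.card →
      ((B.filter (fun y => ∀ x ∈ S, R x y)).card : ℝ) ≤ e * B.card) :
    ((((B ×ˢ B).filter (fun p => R p.1 p.2)).card : ℝ) / (B.card : ℝ) ^ 2) ^ (k + 1) ≤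
      e + (k + 1) ^ 2 * (t / B.card) := by
  set b : ℝ := (B.card : ℝ) with hb
  have hb0 : 0 < b := by rw [hb]; exact_mod_cast hB
  let h : α → ℝ := fun y => ((B.filter (fun x => R x y)).card : ℝ)
  have hsum : (((B ×ˢ B).filter (fun p => R p.1 p.2)).card : ℝ) = ∑ y ∈ B, h y := by
    simp only [h]
    rw [Finset.card_filter, Finset.sum_product_right]
    push_cast
    refine Finset.sum_congr rfl fun y _ => ?_
    rw [Finset.card_filter]
    push_cast
    rfl
  set a : ℝ := (((B ×ˢ B).filter (fun p => R p.1 p.2)).card : ℝ) with ha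
  have hpm := pow_sum_div_card_le_sum_pow (s := B) (f := h) (fun y _ => Nat.cast_nonneg _) k
  rw [← hsum] at hpm
  have hpow : ∀ y, h y ^ (k + 1) =
      (((Fintype.piFinset (fun _ : Fin (k + 1) => B)).filter (fun x => ∀ i, R (x i) y)).card : ℝ) := by
    intro y
    have : (Fintype.piFinset (fun _ : Fin (k + 1) => B)).filter (fun x => ∀ i, R (x i) y) =
        Fintype.piFinset (fun _ : Fin (k + 1) => B.filter (fun x => R x y)) := by
      ext x
      simp only [Finset.mem_filter, Fintype.mem_piFinset]
      constructor
      · rintro ⟨h1, h2⟩ i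
        exact ⟨h1 i, h2 i⟩
      · intro h1
        exact ⟨fun i => (h1 i).1, fun i => (h1 i).2⟩
    rw [this]
    simp [h]
  have hswap : ∑ y ∈ B, h y ^ (k + 1) =
      ∑ x ∈ Fintype.piFinset (fun _ : Fin (k + 1) => B),
        ((B.filter (fun y => ∀ i, R (x i) y)).card : ℝ) := by
    calc ∑ y ∈ B, h y ^ (k + 1) = ∑ y ∈ B, ∑ x ∈ Fintype.piFinset (fun _ : Fin (k + 1) => B),
          (if ∀ i, R (x i) y then (1 : ℝ) else 0) := by
          refine Finset.sum_congr rfl fun y _ => ?_
          rw [hpow, Finset.card_filter]
          push_cast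
          rfl
      _ = ∑ x ∈ Fintype.piFinset (fun _ : Fin (k + 1) => B), ∑ y ∈ B,
          (if ∀ i, R (x i) y then (1 : ℝ) else 0) := Finset.sum_comm
      _ = _ := by
          refine Finset.sum_congr rfl fun x _ => ?_
          rw [Finset.card_filter]
          push_cast
          rfl
  have hbound : ∑ x ∈ Fintype.piFinset (fun _ : Fin (k + 1) => B),
        ((B.filter (fun y => ∀ i, R (x i) y)).card : ℝ) ≤
        b ^ (k + 1) * (e * b) + (k + 1) ^ 2 * (t * b ^ k) * b := by
    rw [← Finset.sum_filter_add_sum_filter_not _ (fun x => Function.Injective fun i => π (x i))]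
    refine add_le_add ?_ ?_
    · calc _ ≤ ∑ x ∈ (Fintype.piFinset (fun _ : Fin (k + 1) => B)).filter
            (fun x => Function.Injective fun i => π (x i)), e * b := by
            refine Finset.sum_le_sum fun x hx => ?_
            have hinj := (Finset.mem_filter.1 hx).2
            have hinj' : Function.Injective x := fun i j hij => hinj (by simp [hij])
            have h1 := H (Finset.univ.image x) (by
              intro p hp q hq hpq
              rw [Finset.mem_coe, Finset.mem_image] at hp hq
              obtain ⟨i, _, rfl⟩ := hp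
              obtain ⟨j, _, rfl⟩ := hq
              rw [hinj hpq]) (by
              rw [Finset.card_image_of_injective _ hinj']; simp)
            refine le_trans (le_of_eq ?_) h1
            congr 2
            ext y
            simp
        _ = (((Fintype.piFinset (fun _ : Fin (k + 1) => B)).filter
            (fun x => Function.Injective fun i => π (x i))).card : ℝ) * (e * b) := by
            rw [Finset.sum_const, nsmul_eq_mul]
        _ ≤ b ^ (k + 1) * (e * b) := by
            refine mul_le_mul_of_nonneg_right ?_ (by positivity)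
            have h2 : ((Fintype.piFinset (fun _ : Fin (k + 1) => B)).filter
              (fun x => Function.Injective fun i => π (x i))).card ≤ B.card ^ (k + 1) := by
              refine (Finset.card_filter_le _ _).trans ?_
              simp
            rw [hb]
            exact_mod_cast h2
    · calc _ ≤ ∑ x ∈ (Fintype.piFinset (fun _ : Fin (k + 1) => B)).filter
            (fun x => ¬ Function.Injective fun i => π (x i)), b := by
            refine Finset.sum_le_sum fun x _ => ?_
            rw [hb]
            exact_mod_cast Finset.card_filter_le _ _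
        _ = (((Fintype.piFinset (fun _ : Fin (k + 1) => B)).filter
            (fun x => ¬ Function.Injective fun i => π (x i))).card : ℝ) * b := by
            rw [Finset.sum_const, nsmul_eq_mul]
        _ ≤ (k + 1) ^ 2 * (t * b ^ k) * b := by
            refine mul_le_mul_of_nonneg_right ?_ hb0.le
            have h2 := card_not_inj π B t ht k
            rw [hb]
            exact_mod_cast h2
  have hfin : a ^ (k + 1) / b ^ k ≤ b ^ (k + 1) * (e * b) + (k + 1) ^ 2 * (t * b ^ k) * b :=
    hpm.trans (hswap.le.trans hbound)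
  rw [div_le_iff₀ (by positivity)] at hfin
  rw [div_pow, div_le_iff₀ (by positivity)]
  calc a ^ (k + 1) ≤ (b ^ (k + 1) * (e * b) + (k + 1) ^ 2 * (t * b ^ k) * b) * b ^ k := hfin
    _ = (e + (k + 1) ^ 2 * (t / b)) * (b ^ 2) ^ (k + 1) := by
        field_simp
        ring


end Pool.Agent.AcylTdc3
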