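import Pool.Agent.AcylTdc3.Sig
import Pool.Agent.AcylTdc.A18

open Filter Topology Set Pool.Agent.TwistedRatio Pool.Agent.AcylTdc

namespace Pool.Agent.AcylTdc3

section R2
variable {H Y : Type*} [Group H] [MetricSpace Y] [MulAction H Y] [IsIsometricSMul H Y] {δ : ℝ}

theorem R2_common_finite (h : Hyp Y δ) (hδ : 0 ≤ δ) (hac : Acyl H Y) {a b : H} {o : Y}
    {Ca Cb B : ℝ} (ha : Axis δ a o Ca) (hb : Axis δ b o Cb)
    (hab : ∀ m n : ℤ, gp o (a ^ m • o) (b ^ n • o) ≤ B) {M : ℕ} (hM : 1 ≤ M) :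
    {c : H | c * a ^ M = a ^ M * c ∧ c * b ^ M = b ^ M * c}.Finite := by
  refine (finite_commuting h hδ hac ha
    (2 * (Ca + 2 * δ + 2 * (dist o (a • o) / 2 + δ)) + (Cb + 2 * δ + 2 * (dist o (b • o) / 2 + δ)) +
      2 * B)).subset ?_
  rintro c ⟨hca, hcb⟩
  refine ⟨?_, M, hM, hca⟩
  obtain ⟨i, hi⟩ := near_axis h hδ ha c ⟨M, hM, Or.inl (by rw [hca, mul_inv_cancel_right])⟩
  obtain ⟨j, hj⟩ := near_axis h hδ hb c ⟨M, hM, Or.inl (by rw [hcb, mul_inv_cancel_right])⟩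
  have h1 := dist_eq_gp o (a ^ i • o) (b ^ j • o)
  have h2 := hab i j
  have h3 : dist (a ^ i • o) (b ^ j • o) ≤ dist (a ^ i • o) (c • o) + dist (c • o) (b ^ j • o) :=
    dist_triangle _ _ _
  rw [dist_comm (c • o) (b ^ j • o)] at h3
  have h4 : dist o (c • o) ≤ dist o (a ^ i • o) + dist (a ^ i • o) (c • o) := dist_triangle _ _ _
  have h5 : 0 ≤ dist o (b ^ j • o) := dist_nonneg
  linarith

end R2

end Pool.Agent.AcylTdc3
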