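import Pool.Agent.AcylTdc3.Sig

/-! Rows R3a and R3c of board T3. -/

open Filter Topology Set Pool.Agent.TwistedRatio Pool.Agent.AcylTdc

namespace Pool.Agent.AcylTdc3

section R3
variable {H Y : Type*} [Group H] [MetricSpace Y] [MulAction H Y] [IsIsometricSMul H Y] {δ : ℝ}

lemma r3_four (h : Hyp Y δ) (o x y z : Y) :
    dist x z + dist o y ≤ dist o z + dist x y + 2 * δ ∨
      dist x z + dist o y ≤ dist o x + dist y z + 2 * δ := by
  have h1 := h o x y z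
  unfold gp at h1
  rcases min_choice ((dist o x + dist o y - dist x y) / 2) ((dist o y + dist o z - dist y z) / 2) with h2 | h2
  · rw [h2] at h1
    left
    linarith
  · rw [h2] at h1
    right
    linarith

/-- R3a (four points). -/
theorem R3a (h : Hyp Y δ) (U U' P P' : Y) :
    dist P P' ≤ gp P U U' + gp P' U U' +
        |(dist U P - dist U' P) / 2 - (dist U P' - dist U' P') / 2| + 2 * δ ∧
      (|(dist U P - dist U' P) / 2 - (dist U P' - dist U' P') / 2| ≤ δ ∨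
        gp P U U' + gp P' U U' +
          |(dist U P - dist U' P) / 2 - (dist U P' - dist U' P') / 2| ≤ dist P P' + 2 * δ) := by
  have c1 : dist P U = dist U P := dist_comm _ _
  have c2 : dist P U' = dist U' P := dist_comm _ _
  have c3 : dist P' U = dist U P' := dist_comm _ _
  have c4 : dist P' U' = dist U' P' := dist_comm _ _
  have c5 : dist P' P = dist P P' := dist_comm _ _
  have c6 : dist U' U = dist U U' := dist_comm _ _
  have f1 := r3_four h U P U' P'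
  have f2 := r3_four h U P' P U'
  have f3 := r3_four h U P P' U'
  unfold gp
  rw [c1, c2, c3, c4]
  rw [c1, c2, c5] at *
  constructor
  · rcases f1 with f | f
    · have := le_abs_self ((dist U P - dist U' P) / 2 - (dist U P' - dist U' P') / 2)
      have := neg_abs_le ((dist U P - dist U' P) / 2 - (dist U P' - dist U' P') / 2)
      linarith
    · have := le_abs_self ((dist U P - dist U' P) / 2 - (dist U P' - dist U' P') / 2)
      have := neg_abs_le ((dist U P - dist U' P) / 2 - (dist U P' - dist U' P') / 2)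
      linarith
  · rcases le_total 0 ((dist U P - dist U' P) / 2 - (dist U P' - dist U' P') / 2) with h0 | h0
    · rw [abs_of_nonneg h0]
      rcases f2 with f | f
      · right
        linarith
      · left
        linarith
    · rw [abs_of_nonpos h0]
      rcases f3 with f | f
      · right
        linarith
      · left
        linarith

lemma r3_mid {δ E ρ r1 r3 rm x p : ℝ} (hδ : 0 ≤ δ) (hrm : 0 ≤ rm)
    (hE1 : E ≤ r1 + r3 + x + 2 * δ) (hE2 : r1 + r3 + x ≤ E + 2 * δ) (hx : 20 * δ + 1 ≤ x)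
    (hρ1 : 20 * δ + 1 ≤ ρ - r3) (hρ2 : 20 * δ + 1 ≤ E - ρ - r1)
    (h3 : ρ ≤ r3 + rm + |p| + 2 * δ) (h3' : |p| ≤ δ ∨ r3 + rm + |p| ≤ ρ + 2 * δ)
    (h1' : |p - x| ≤ δ ∨ rm + r1 + |p - x| ≤ E - ρ + 2 * δ) :
    rm ≤ 3 * δ ∧ |p - (ρ - r3)| ≤ 5 * δ := by
  rcases le_total 0 p with hp | hp
  · rw [abs_of_nonneg hp] at h3 h3'
    rcases le_total 0 (p - x) with hq | hq
    · rw [abs_of_nonneg hq] at h1'
      exfalso
      rcases h3' with h3' | h3' <;> rcases h1' with h1' | h1' <;> linarith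
    · rw [abs_of_nonpos hq] at h1'
      rcases h3' with h3' | h3'
      · exfalso
        rcases h1' with h1' | h1' <;> linarith
      · rcases h1' with h1' | h1'
        · exfalso
          linarith
        · have : rm ≤ 3 * δ := by linarith
          refine ⟨this, ?_⟩
          rw [abs_le]
          constructor <;> linarith
  · rw [abs_of_nonpos hp] at h3 h3'
    have hq : p - x ≤ 0 := by linarith
    rw [abs_of_nonpos hq] at h1'
    exfalso
    rcases h3' with h3' | h3' <;> rcases h1' with h1' | h1' <;> linarith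

lemma r3_x {δ L E r1 r3 s1 s3 u1 u3 v1 v3 t1 t3 : ℝ} (hδ : 0 ≤ δ) (hL : 0 ≤ L)
    (ht : t1 + 2000 * (L + δ + 1) ≤ t3)
    (A1 : |v1 - u1 - t1| ≤ 4 * δ + L) (A3 : |v3 - u3 - t3| ≤ 4 * δ + L)
    (B1 : |s1 - r1| ≤ 8 * δ + L) (B3 : |s3 - r3| ≤ 8 * δ + L)
    (e1 : E ≤ r1 + r3 + |u1 - u3| + 2 * δ) (e1' : |u1 - u3| ≤ δ ∨ r1 + r3 + |u1 - u3| ≤ E + 2 * δ)
    (e2 : E ≤ s1 + s3 + |v1 - v3| + 2 * δ) (e2' : |v1 - v3| ≤ δ ∨ s1 + s3 + |v1 - v3| ≤ E + 2 * δ) :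
    |(u1 - u3) - (t3 - t1) / 2| ≤ 14 * δ + 2 * L ∧ 0 ≤ u1 - u3 ∧ 0 ≤ v3 - v1 ∧
      r1 + r3 + (u1 - u3) ≤ E + 2 * δ ∧ s1 + s3 + (v3 - v1) ≤ E + 2 * δ := by
  rw [abs_le] at A1 A3 B1 B3
  obtain ⟨A1a, A1b⟩ := A1
  obtain ⟨A3a, A3b⟩ := A3
  obtain ⟨B1a, B1b⟩ := B1
  obtain ⟨B3a, B3b⟩ := B3
  rcases le_total 0 (u1 - u3) with hx | hx
  · rw [abs_of_nonneg hx] at e1 e1'
    rcases le_total 0 (v1 - v3) with hy | hy
    · rw [abs_of_nonneg hy] at e2 e2'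
      exfalso
      rcases e1' with e1' | e1' <;> rcases e2' with e2' | e2' <;> linarith
    · rw [abs_of_nonpos hy] at e2 e2'
      rcases e1' with e1' | e1'
      · exfalso
        rcases e2' with e2' | e2' <;> linarith
      · rcases e2' with e2' | e2'
        · exfalso
          linarith
        · refine ⟨?_, hx, by linarith, e1', by linarith⟩
          rw [abs_le]
          constructor <;> linarith
  · rw [abs_of_nonpos hx] at e1 e1'
    exfalso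
    rcases le_total 0 (v1 - v3) with hy | hy
    · rw [abs_of_nonneg hy] at e2 e2'
      linarith
    · rw [abs_of_nonpos hy] at e2 e2'
      rcases e1' with e1' | e1' <;> rcases e2' with e2' | e2' <;> linarith

lemma r3_lip (U U' Q Q' : Y) :
    |(dist U Q - dist U' Q) / 2 - (dist U Q' - dist U' Q') / 2| ≤ dist Q Q' ∧
      |gp Q U U' - gp Q' U U'| ≤ dist Q Q' := by
  have h1 := dist_triangle U Q Q'
  have h2 := dist_triangle U Q' Q
  have h3 := dist_triangle U' Q Q'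
  have h4 := dist_triangle U' Q' Q
  have c1 : dist Q' Q = dist Q Q' := dist_comm _ _
  have c2 : dist Q U = dist U Q := dist_comm _ _
  have c3 : dist Q U' = dist U' Q := dist_comm _ _
  have c4 : dist Q' U = dist U Q' := dist_comm _ _
  have c5 : dist Q' U' = dist U' Q' := dist_comm _ _
  rw [c1] at h2 h4
  unfold gp
  rw [c2, c3, c4, c5]
  constructor
  · rw [abs_le]
    constructor <;> linarith
  · rw [abs_le]
    constructor <;> linarith

lemma r3_gp_nonneg (P U U' : Y) : 0 ≤ gp P U U' := by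
  have h1 := dist_triangle U P U'
  have c2 : dist P U = dist U P := dist_comm _ _
  unfold gp
  rw [c2]
  linarith

/-- R3c (three shifts). -/
theorem R3c (h : Hyp Y δ) (hδ : 0 ≤ δ) (hgeo : Geod Y) (U U' : Y) (g a₁ a₂ a₃ : H) {L t₁ t₂ t₃ : ℝ}
    (hL : 0 ≤ L) (P₁ P₃ m : Y) (hP₁ : dist P₁ (a₁ • P₁) ≤ L) (hP₃ : dist P₃ (a₃ • P₃) ≤ L)
    (h12 : t₁ + 1000 * (L + δ + 1) ≤ t₂) (h23 : t₂ + 1000 * (L + δ + 1) ≤ t₃)
    (hm : dist P₃ m = gp P₃ U U' + ((dist U (g⁻¹ • P₃) - dist U' (g⁻¹ • P₃)) / 2 -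
      (dist U P₃ - dist U' P₃) / 2 - t₂ + gp (g⁻¹ • P₃) U U' - gp P₃ U U') / 2)
    (hm' : dist P₃ m + dist m P₁ = dist P₃ P₁)
    (h₁ : |(dist U (g⁻¹ • a₁ • P₁) - dist U' (g⁻¹ • a₁ • P₁)) / 2 - (dist U P₁ - dist U' P₁) / 2 - t₁|
      ≤ 4 * δ ∧ |gp (g⁻¹ • a₁ • P₁) U U' - gp P₁ U U'| ≤ 8 * δ)
    (h₃ : |(dist U (g⁻¹ • a₃ • P₃) - dist U' (g⁻¹ • a₃ • P₃)) / 2 - (dist U P₃ - dist U' P₃) / 2 - t₃|
      ≤ 4 * δ ∧ |gp (g⁻¹ • a₃ • P₃) U U' - gp P₃ U U'| ≤ 8 * δ)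
    (h₂ : |(dist U (g⁻¹ • a₂ • m) - dist U' (g⁻¹ • a₂ • m)) / 2 - (dist U m - dist U' m) / 2 - t₂|
      ≤ 4 * δ ∧ |gp (g⁻¹ • a₂ • m) U U' - gp m U U'| ≤ 8 * δ) :
    dist m (a₂ • m) ≤ 1000 * (δ + 1) := by
  have d1 : dist (g⁻¹ • a₁ • P₁) (g⁻¹ • P₁) ≤ L := by rw [dist_smul, dist_comm]; exact hP₁
  have d3 : dist (g⁻¹ • a₃ • P₃) (g⁻¹ • P₃) ≤ L := by rw [dist_smul, dist_comm]; exact hP₃
  have l1 := r3_lip U U' (g⁻¹ • a₁ • P₁) (g⁻¹ • P₁)
  have l3 := r3_lip U U' (g⁻¹ • a₃ • P₃) (g⁻¹ • P₃)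
  have q13 := R3a h U U' P₁ P₃
  have q13' := R3a h U U' (g⁻¹ • P₁) (g⁻¹ • P₃)
  have q3m := R3a h U U' P₃ m
  have q3m' := R3a h U U' (g⁻¹ • P₃) (g⁻¹ • m)
  have qm1 := R3a h U U' m P₁
  have qm1' := R3a h U U' (g⁻¹ • m) (g⁻¹ • P₁)
  have qf := R3a h U U' (g⁻¹ • m) (g⁻¹ • a₂ • m)
  rw [dist_smul] at q13' q3m' qm1' qf
  have n3 := r3_gp_nonneg m U U'
  have n3' := r3_gp_nonneg (g⁻¹ • m) U U'
  have hE : dist P₁ P₃ = dist P₃ P₁ := dist_comm _ _
  rw [hE] at q13 q13'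
  generalize hu1 : (dist U P₁ - dist U' P₁) / 2 = u1 at *
  generalize hu3 : (dist U P₃ - dist U' P₃) / 2 = u3 at *
  generalize hum : (dist U m - dist U' m) / 2 = um at *
  generalize hv1 : (dist U (g⁻¹ • P₁) - dist U' (g⁻¹ • P₁)) / 2 = v1 at *
  generalize hv3 : (dist U (g⁻¹ • P₃) - dist U' (g⁻¹ • P₃)) / 2 = v3 at *
  generalize hvm : (dist U (g⁻¹ • m) - dist U' (g⁻¹ • m)) / 2 = vm at *
  generalize hw1 : (dist U (g⁻¹ • a₁ • P₁) - dist U' (g⁻¹ • a₁ • P₁)) / 2 = w1 at *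
  generalize hw3 : (dist U (g⁻¹ • a₃ • P₃) - dist U' (g⁻¹ • a₃ • P₃)) / 2 = w3 at *
  generalize hw2 : (dist U (g⁻¹ • a₂ • m) - dist U' (g⁻¹ • a₂ • m)) / 2 = w2 at *
  generalize hr1 : gp P₁ U U' = r1 at *
  generalize hr3 : gp P₃ U U' = r3 at *
  generalize hrm : gp m U U' = rm at *
  generalize hs1 : gp (g⁻¹ • P₁) U U' = s1 at *
  generalize hs3 : gp (g⁻¹ • P₃) U U' = s3 at *
  generalize hsm : gp (g⁻¹ • m) U U' = sm at *
  generalize hz1 : gp (g⁻¹ • a₁ • P₁) U U' = z1 at *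
  generalize hz3 : gp (g⁻¹ • a₃ • P₃) U U' = z3 at *
  generalize hz2 : gp (g⁻¹ • a₂ • m) U U' = z2 at *
  generalize hEE : dist P₃ P₁ = E at *
  have hmP : dist m P₁ = E - dist P₃ m := by linarith
  rw [hmP] at qm1 qm1'
  generalize hρ : dist P₃ m = ρ at *
  have A1 : |v1 - u1 - t₁| ≤ 4 * δ + L := by
    have e1 := h₁.1
    have e2 := l1.1
    rw [abs_le] at e1 e2 ⊢
    constructor <;> linarith [e1.1, e1.2, e2.1, e2.2]
  have A3 : |v3 - u3 - t₃| ≤ 4 * δ + L := by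
    have e1 := h₃.1
    have e2 := l3.1
    rw [abs_le] at e1 e2 ⊢
    constructor <;> linarith [e1.1, e1.2, e2.1, e2.2]
  have B1 : |s1 - r1| ≤ 8 * δ + L := by
    have e1 := h₁.2
    have e2 := l1.2
    rw [abs_le] at e1 e2 ⊢
    constructor <;> linarith [e1.1, e1.2, e2.1, e2.2]
  have B3 : |s3 - r3| ≤ 8 * δ + L := by
    have e1 := h₃.2
    have e2 := l3.2
    rw [abs_le] at e1 e2 ⊢
    constructor <;> linarith [e1.1, e1.2, e2.1, e2.2]
  obtain ⟨X1, X2, X3, X4, X5⟩ := r3_x hδ hL (by linarith) A1 A3 B1 B3 q13.1 q13.2 q13'.1 q13'.2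
  have hE1 : E ≤ r1 + r3 + (u1 - u3) + 2 * δ := by
    have := q13.1
    rw [abs_of_nonneg X2] at this
    exact this
  have hE1' : E ≤ s1 + s3 + (v3 - v1) + 2 * δ := by
    have := q13'.1
    rw [abs_of_nonpos (by linarith)] at this
    linarith
  rw [abs_le] at A1 A3 B1 B3 X1
  obtain ⟨A1a, A1b⟩ := A1
  obtain ⟨A3a, A3b⟩ := A3
  obtain ⟨B1a, B1b⟩ := B1
  obtain ⟨B3a, B3b⟩ := B3
  obtain ⟨X1a, X1b⟩ := X1
  have M := r3_mid (δ := δ) (E := E) (ρ := ρ) (r1 := r1) (r3 := r3) (rm := rm) (x := u1 - u3)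
    (p := um - u3) hδ n3 hE1 X4 (by linarith) (by linarith) (by linarith)
    (by rw [abs_sub_comm um u3]; exact q3m.1) (by rw [abs_sub_comm um u3]; exact q3m.2)
    (by
      have e : um - u3 - (u1 - u3) = um - u1 := by ring
      rw [e]; exact qm1.2)
  have M' := r3_mid (δ := δ) (E := E) (ρ := ρ) (r1 := s1) (r3 := s3) (rm := sm) (x := v3 - v1)
    (p := v3 - vm) hδ n3' hE1' X5 (by linarith) (by linarith) (by linarith)
    q3m'.1 q3m'.2
    (by
      have e : v3 - vm - (v3 - v1) = -(vm - v1) := by ring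
      rw [e, abs_neg]; exact qm1'.2)
  have F := qf.1
  have e2 := h₂.1
  have e3 := h₂.2
  obtain ⟨M1, M2⟩ := M
  obtain ⟨M1', M2'⟩ := M'
  rw [abs_le] at e2 e3 M2 M2'
  have hw : |vm - w2| ≤ 14 * δ := by
    rw [abs_le]
    constructor <;> linarith [e2.1, e2.2, M2.1, M2.2, M2'.1, M2'.2]
  linarith [e3.1, e3.2]

end R3

end Pool.Agent.AcylTdc3
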