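import Pool.Agent.AcylTdc3.Sig
import Pool.Agent.AcylTdc.A03
import Pool.Agent.AcylTdc.A07

open Filter Topology Set Pool.Agent.TwistedRatio Pool.Agent.AcylTdc

namespace Pool.Agent.AcylTdc3

variable {H Y : Type*} [Group H] [MetricSpace Y] [MulAction H Y] [IsIsometricSMul H Y] {δ : ℝ}

/-- the four point step -/
theorem R3b_step (h : Hyp Y δ) (c : H) (U y₀ P P' : Y) {T ρ : ℝ} (hT : dist U (c • U) ≤ T)
    (hP : dist y₀ P ≤ ρ) (hP' : dist y₀ P' ≤ ρ) (hfar : T + 3 * ρ ≤ dist U y₀) :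
    (dist U (c⁻¹ • P) - dist U P) - (dist U (c⁻¹ • P') - dist U P') ≤ 2 * δ := by
  have e : ∀ Q : Y, dist U (c⁻¹ • Q) = dist (c • U) Q := by
    intro Q
    rw [← dist_smul c U (c⁻¹ • Q), smul_inv_smul]
  rw [e, e]
  have h1 := h.four_point (c • U) P U P'
  have h2 : dist (c • U) U + dist P P' ≤ dist (c • U) P' + dist P U := by
    have a1 := dist_triangle P y₀ P'
    have a2 := dist_triangle U P y₀
    rw [dist_comm P y₀] at a1 a2
    rw [dist_comm (c • U) U, dist_comm P U]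
    have a3 : 0 ≤ dist (c • U) P' := dist_nonneg
    linarith
  rw [max_eq_right h2] at h1
  rw [dist_comm P U] at h1
  linarith

theorem R3b (h : Hyp Y δ) (hδ : 0 ≤ δ) (hgeo : Geod Y) {d : H} (hd : Lox Y d)
    (C : Finset H) (hC : ∀ c ∈ C, c * d = d * c) (y₀ : Y) :
    ∃ ρ₀ : ℝ, ∀ ρ ≥ ρ₀, ∃ U U' m₀ : Y, dist y₀ m₀ ≤ ρ ∧ gp m₀ U U' = 0 ∧
      ∀ c ∈ C, ∃ t : ℝ, ∀ P : Y, dist y₀ P ≤ ρ →
      |(dist U (c⁻¹ • P) - dist U' (c⁻¹ • P)) / 2 - (dist U P - dist U' P) / 2 - t| ≤ 4 * δ ∧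
      |gp (c⁻¹ • P) U U' - gp P U U'| ≤ 8 * δ := by
  obtain ⟨m, hm, Ca, ax⟩ := hd.exists_axis h hδ y₀
  set f := d ^ m with hf
  have hcf : ∀ c ∈ C, ∀ k : ℤ, c * f ^ k = f ^ k * c := by
    intro c hc k
    have h1 : Commute c d := hC c hc
    exact ((h1.pow_right m).zpow_right k).eq
  set T : ℝ := ∑ c ∈ C, dist y₀ (c • y₀) with hT
  have hTc : ∀ c ∈ C, dist y₀ (c • y₀) ≤ T := fun c hc =>
    Finset.single_le_sum (f := fun c => dist y₀ (c • y₀)) (fun _ _ => dist_nonneg) hc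
  have hT0 : 0 ≤ T := Finset.sum_nonneg fun _ _ => dist_nonneg
  refine ⟨3 * Ca + 2 * δ, fun ρ hρ => ?_⟩
  have hCa := ax.nonneg
  have hρ0 : 0 ≤ ρ := by linarith
  obtain ⟨n, hn⟩ := exists_nat_gt (T + 3 * ρ + 2 * δ)
  set U := f ^ (-(n : ℤ)) • y₀ with hU
  set U' := f ^ (n : ℤ) • y₀ with hU'
  have hdU' : (n : ℝ) ≤ dist U' y₀ := by
    have := ax.lower n
    rw [dist_comm, hU', zpow_natCast]
    exact this
  have hdU : (n : ℝ) ≤ dist U y₀ := by
    have h1 : dist U y₀ = dist U' y₀ := by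
      rw [hU, hU', ← dist_smul (f ^ (n : ℤ)) (f ^ (-(n : ℤ)) • y₀) y₀, smul_smul, ← zpow_add, add_neg_cancel,
        zpow_zero, one_smul, dist_comm]
    rw [h1]; exact hdU'
  have hgp : gp y₀ U U' ≤ Ca := by
    have := ax.turn (-(n : ℤ)) 0 n (by omega) (by omega)
    rwa [zpow_zero, one_smul] at this
  -- the middle point
  obtain ⟨m₀, hm1, hm2⟩ := hgeo.point U U' (t := gp U y₀ U') (gp_nonneg _ _ _) (gp_le_right _ _ _)
  have hm0 : gp m₀ U U' = 0 := gp_zero_of_between m₀ U U' (by rw [dist_comm m₀ U, hm1, hm2]; ring)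
  have hadd := gp_add y₀ U U'
  have hm0' : dist y₀ m₀ ≤ 3 * Ca + 2 * δ := by
    have h1 := h.close U U' y₀ m₀ hgp (by rw [hm0]; exact hCa)
    have h2 : |dist U y₀ - dist U m₀| ≤ Ca := by
      rw [hm1, dist_comm U y₀]
      have h3 : dist y₀ U - gp U y₀ U' = gp y₀ U U' := by linarith
      rw [h3, abs_of_nonneg (gp_nonneg _ _ _)]
      exact hgp
    linarith
  have hm0ρ : dist y₀ m₀ ≤ ρ := le_trans hm0' hρ
  refine ⟨U, U', m₀, hm0ρ, hm0, fun c hc => ?_⟩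
  have hcU : dist U (c • U) ≤ T := by
    rw [hU, smul_smul, hcf c hc, mul_smul, dist_smul]
    exact hTc c hc
  have hcU' : dist U' (c • U') ≤ T := by
    rw [hU', smul_smul, hcf c hc, mul_smul, dist_smul]
    exact hTc c hc
  have hnear : gp (c⁻¹ • m₀) U U' ≤ 2 * δ := by
    have a1 := dist_triangle U m₀ y₀
    have a2 := dist_triangle U' m₀ y₀
    rw [dist_comm m₀ y₀] at a1 a2
    refine near_of_move h hδ (T := T) (by rw [hm1, hm2]; ring) (by rw [dist_inv_smul]; exact hcU)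
      (by rw [dist_inv_smul]; exact hcU') (by linarith) (by rw [dist_comm m₀ U']; linarith)
  refine ⟨((dist U (c⁻¹ • m₀) - dist U m₀) - (dist U' (c⁻¹ • m₀) - dist U' m₀)) / 2, fun P hP => ?_⟩
  have b1 := R3b_step h c U y₀ P m₀ hcU hP hm0ρ (by linarith)
  have b2 := R3b_step h c U y₀ m₀ P hcU hm0ρ hP (by linarith)
  have b3 := R3b_step h c U' y₀ P m₀ hcU' hP hm0ρ (by linarith)
  have b4 := R3b_step h c U' y₀ m₀ P hcU' hm0ρ hP (by linarith)
  constructor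
  · rw [abs_le]
    constructor <;> linarith
  · have h5 := gp_nonneg (c⁻¹ • m₀) U U'
    unfold gp at hnear hm0 h5 ⊢
    rw [dist_comm _ U, dist_comm _ U'] at hnear hm0 h5
    rw [dist_comm (c⁻¹ • P) U, dist_comm (c⁻¹ • P) U', dist_comm P U, dist_comm P U']
    rw [abs_le]
    constructor <;> linarith

end Pool.Agent.AcylTdc3
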