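import Pool.Agent.AcylTdc3.R3ac

/-! Row R3d of board T3. -/

open Filter Topology Set Pool.Agent.TwistedRatio Pool.Agent.AcylTdc

namespace Pool.Agent.AcylTdc3

section R3
variable {H Y : Type*} [Group H] [MetricSpace Y] [MulAction H Y] [IsIsometricSMul H Y] {δ : ℝ}

/-- R3d (existence of `m` in R3c). -/
theorem R3d (h : Hyp Y δ) (hδ : 0 ≤ δ) (hgeo : Geod Y) (U U' : Y) (g a₁ a₃ : H) {L t₁ t₂ t₃ : ℝ}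
    (hL : 0 ≤ L) (P₁ P₃ : Y) (hP₁ : dist P₁ (a₁ • P₁) ≤ L) (hP₃ : dist P₃ (a₃ • P₃) ≤ L)
    (h12 : t₁ + 1000 * (L + δ + 1) ≤ t₂) (h23 : t₂ + 1000 * (L + δ + 1) ≤ t₃)
    (h₁ : |(dist U (g⁻¹ • a₁ • P₁) - dist U' (g⁻¹ • a₁ • P₁)) / 2 - (dist U P₁ - dist U' P₁) / 2 - t₁|
      ≤ 4 * δ ∧ |gp (g⁻¹ • a₁ • P₁) U U' - gp P₁ U U'| ≤ 8 * δ)
    (h₃ : |(dist U (g⁻¹ • a₃ • P₃) - dist U' (g⁻¹ • a₃ • P₃)) / 2 - (dist U P₃ - dist U' P₃) / 2 - t₃|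
      ≤ 4 * δ ∧ |gp (g⁻¹ • a₃ • P₃) U U' - gp P₃ U U'| ≤ 8 * δ) :
    ∃ m : Y, dist P₃ m + dist m P₁ = dist P₃ P₁ ∧
      dist P₃ m = gp P₃ U U' + ((dist U (g⁻¹ • P₃) - dist U' (g⁻¹ • P₃)) / 2 -
      (dist U P₃ - dist U' P₃) / 2 - t₂ + gp (g⁻¹ • P₃) U U' - gp P₃ U U') / 2 := by
  have d1 : dist (g⁻¹ • a₁ • P₁) (g⁻¹ • P₁) ≤ L := by rw [dist_smul, dist_comm]; exact hP₁
  have d3 : dist (g⁻¹ • a₃ • P₃) (g⁻¹ • P₃) ≤ L := by rw [dist_smul, dist_comm]; exact hP₃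
  have l1 := r3_lip U U' (g⁻¹ • a₁ • P₁) (g⁻¹ • P₁)
  have l3 := r3_lip U U' (g⁻¹ • a₃ • P₃) (g⁻¹ • P₃)
  have q13 := R3a h U U' P₁ P₃
  have q13' := R3a h U U' (g⁻¹ • P₁) (g⁻¹ • P₃)
  rw [dist_smul] at q13'
  have n1 := r3_gp_nonneg P₁ U U'
  have n3 := r3_gp_nonneg P₃ U U'
  have hE : dist P₁ P₃ = dist P₃ P₁ := dist_comm _ _
  rw [hE] at q13 q13'
  have A1 : |(dist U (g⁻¹ • P₁) - dist U' (g⁻¹ • P₁)) / 2 - (dist U P₁ - dist U' P₁) / 2 - t₁| ≤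
      4 * δ + L := by
    have e1 := h₁.1
    have e2 := l1.1
    rw [abs_le] at e1 e2 ⊢
    constructor <;> linarith [e1.1, e1.2, e2.1, e2.2]
  have A3 : |(dist U (g⁻¹ • P₃) - dist U' (g⁻¹ • P₃)) / 2 - (dist U P₃ - dist U' P₃) / 2 - t₃| ≤
      4 * δ + L := by
    have e1 := h₃.1
    have e2 := l3.1
    rw [abs_le] at e1 e2 ⊢
    constructor <;> linarith [e1.1, e1.2, e2.1, e2.2]
  have B1 : |gp (g⁻¹ • P₁) U U' - gp P₁ U U'| ≤ 8 * δ + L := by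
    have e1 := h₁.2
    have e2 := l1.2
    rw [abs_le] at e1 e2 ⊢
    constructor <;> linarith [e1.1, e1.2, e2.1, e2.2]
  have B3 : |gp (g⁻¹ • P₃) U U' - gp P₃ U U'| ≤ 8 * δ + L := by
    have e1 := h₃.2
    have e2 := l3.2
    rw [abs_le] at e1 e2 ⊢
    constructor <;> linarith [e1.1, e1.2, e2.1, e2.2]
  obtain ⟨X1, X2, X3, X4, X5⟩ := r3_x hδ hL (by linarith) A1 A3 B1 B3 q13.1 q13.2 q13'.1 q13'.2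
  rw [abs_le] at A3 B3 X1
  obtain ⟨A3a, A3b⟩ := A3
  obtain ⟨B3a, B3b⟩ := B3
  obtain ⟨X1a, X1b⟩ := X1
  obtain ⟨m, hm1, hm2⟩ := hgeo.point P₃ P₁
    (t := gp P₃ U U' + ((dist U (g⁻¹ • P₃) - dist U' (g⁻¹ • P₃)) / 2 -
      (dist U P₃ - dist U' P₃) / 2 - t₂ + gp (g⁻¹ • P₃) U U' - gp P₃ U U') / 2)
    (by linarith) (by linarith)
  exact ⟨m, by rw [hm1, hm2]; ring, hm1⟩

end R3

end Pool.Agent.AcylTdc3
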