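import Pool.Agent.AcylTdc3.Sig
import Pool.Agent.AcylTdc3.R3ac
import Pool.Agent.AcylTdc3.R3d
import Pool.Agent.AcylTdc3.R3b

/-! T3 row R3 (assembly). -/

open Filter Topology Set Pool.Agent.TwistedRatio Pool.Agent.AcylTdc

namespace Pool.Agent.AcylTdc3

section R3
variable {H Y : Type*} [Group H] [MetricSpace Y] [MulAction H Y] [IsIsometricSMul H Y] {δ : ℝ}


private theorem R3_pick {α : Type*} [DecidableEq α] (A : Finset α) (t : α → ℝ) (G : ℝ) (M : ℕ)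
    (hM : G + 1 ≤ (M : ℝ)) (hgap : ∀ a ∈ A, ∀ b ∈ A, |t a - t b| ≤ 1 → a = b) (hc : 2 * M < A.card) :
    ∃ a₁ ∈ A, ∃ a₂ ∈ A, ∃ a₃ ∈ A, t a₁ + G ≤ t a₂ ∧ t a₂ + G ≤ t a₃ := by
  have hne : A.Nonempty := Finset.card_pos.1 (by omega)
  obtain ⟨a₁, h1, hmin⟩ := A.exists_min_image t hne
  obtain ⟨a₃, h3, hmax⟩ := A.exists_max_image t hne
  have hinj : Set.InjOn (fun a => ⌊t a⌋) (A : Set α) := by
    intro a ha b hb hab
    apply hgap a ha b hb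
    simp only at hab
    have e1 := Int.floor_le (t a)
    have e2 := Int.lt_floor_add_one (t a)
    have e3 := Int.floor_le (t b)
    have e4 := Int.lt_floor_add_one (t b)
    rw [hab] at e1 e2
    rw [abs_le]
    constructor <;> linarith
  have key : ∃ a₂ ∈ A, ¬ (⌊t a₂⌋ < ⌊t a₁⌋ + M) ∧ ¬ (⌊t a₃⌋ - M < ⌊t a₂⌋) := by
    by_contra hcon
    push Not at hcon
    have hsub : A.image (fun a => ⌊t a⌋) ⊆
        Finset.Ico ⌊t a₁⌋ (⌊t a₁⌋ + M) ∪ Finset.Ioc (⌊t a₃⌋ - M) ⌊t a₃⌋ := by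
      intro z hz
      obtain ⟨a, ha, rfl⟩ := Finset.mem_image.1 hz
      rw [Finset.mem_union, Finset.mem_Ico, Finset.mem_Ioc]
      have l1 : ⌊t a₁⌋ ≤ ⌊t a⌋ := Int.floor_le_floor (hmin a ha)
      have l3 : ⌊t a⌋ ≤ ⌊t a₃⌋ := Int.floor_le_floor (hmax a ha)
      by_cases hlt : ⌊t a⌋ < ⌊t a₁⌋ + M
      · exact Or.inl ⟨l1, hlt⟩
      · exact Or.inr ⟨hcon a ha (by omega), l3⟩
    have h4 := Finset.card_le_card hsub
    rw [Finset.card_image_of_injOn hinj] at h4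
    have h5 := Finset.card_union_le (Finset.Ico ⌊t a₁⌋ (⌊t a₁⌋ + M)) (Finset.Ioc (⌊t a₃⌋ - M) ⌊t a₃⌋)
    rw [Int.card_Ico, Int.card_Ioc] at h5
    omega
  obtain ⟨a₂, h2, k1, k2⟩ := key
  refine ⟨a₁, h1, a₂, h2, a₃, h3, ?_, ?_⟩
  · have k3 : ⌊t a₁⌋ + (M : ℤ) ≤ ⌊t a₂⌋ := by omega
    have k4 : ((⌊t a₁⌋ : ℝ)) + (M : ℝ) ≤ (⌊t a₂⌋ : ℝ) := by exact_mod_cast k3
    have e2 := Int.lt_floor_add_one (t a₁)
    have e3 := Int.floor_le (t a₂)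
    linarith
  · have k3 : ⌊t a₂⌋ + (M : ℤ) ≤ ⌊t a₃⌋ := by omega
    have k4 : ((⌊t a₂⌋ : ℝ)) + (M : ℝ) ≤ (⌊t a₃⌋ : ℝ) := by exact_mod_cast k3
    have e2 := Int.lt_floor_add_one (t a₂)
    have e3 := Int.floor_le (t a₃)
    linarith

theorem R3 (h : Hyp Y δ) (hδ : 0 ≤ δ) (hgeo : Geod Y) {F : H} {o : Y}
    (hF : ∀ P : Y, 1000 * (δ + 1) < dist P (F • P))
    (hsep : ∀ (p q : H) (Q : Y), dist ((p * F * p⁻¹) • Q) ((q * F * q⁻¹) • Q) ≤ 1000 * (δ + 1) →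
      p * F * p⁻¹ = q * F * q⁻¹) :
    ∃ N₀ : ℕ, ∀ d : H, Lox Y d → ∀ g : H, ∀ A : Finset H,
      (∀ a ∈ A, (∃ p, a = p * F * p⁻¹) ∧ (a⁻¹ * g) * d = d * (a⁻¹ * g)) → A.card ≤ N₀ := by
  classical
  set L : ℝ := dist o (F • o) with hLdef
  have hL : 0 ≤ L := dist_nonneg
  set G : ℝ := 1000 * (L + δ + 1) with hGdef
  set M : ℕ := ⌈G + 1⌉₊ with hMdef
  have hM : G + 1 ≤ (M : ℝ) := Nat.le_ceil _
  refine ⟨2 * M, ?_⟩
  intro d hd g A hA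
  by_contra hcon
  push Not at hcon
  -- base points
  have hp : ∀ a : H, ∃ p : H, a ∈ A → a = p * F * p⁻¹ := by
    intro a
    by_cases ha : a ∈ A
    · obtain ⟨p, hp⟩ := (hA a ha).1
      exact ⟨p, fun _ => hp⟩
    · exact ⟨1, fun h' => absurd h' ha⟩
  choose p hp using hp
  have hPa : ∀ a ∈ A, dist (p a • o) (a • p a • o) ≤ L := by
    intro a ha
    have e : a • p a • o = p a • F • o := by
      rw [smul_smul, smul_smul]
      congr 1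
      nth_rewrite 1 [hp a ha]
      group
    rw [e, dist_smul]
  obtain ⟨ρ₀, hρ₀⟩ := R3b h hδ hgeo hd (A.image (fun a => a⁻¹ * g)) (by
    intro c hc
    obtain ⟨a, ha, rfl⟩ := Finset.mem_image.1 hc
    exact (hA a ha).2) o
  set R : ℝ := ∑ a ∈ A, dist o (p a • o) with hR
  have hR0 : 0 ≤ R := Finset.sum_nonneg (fun _ _ => dist_nonneg)
  have hRa : ∀ a ∈ A, dist o (p a • o) ≤ R := fun a ha =>
    Finset.single_le_sum (f := fun a => dist o (p a • o)) (fun _ _ => dist_nonneg) ha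
  obtain ⟨U, U', m₀, hm₀, hg₀, hC⟩ := hρ₀ (max ρ₀ (3 * R)) (le_max_left _ _)
  have hC' : ∀ a ∈ A, ∃ t : ℝ, ∀ P : Y, dist o P ≤ max ρ₀ (3 * R) →
      |(dist U (g⁻¹ • a • P) - dist U' (g⁻¹ • a • P)) / 2 - (dist U P - dist U' P) / 2 - t| ≤ 4 * δ ∧
      |gp (g⁻¹ • a • P) U U' - gp P U U'| ≤ 8 * δ := by
    intro a ha
    obtain ⟨t, ht⟩ := hC (a⁻¹ * g) (Finset.mem_image_of_mem _ ha)
    refine ⟨t, fun P hP => ?_⟩
    have e : (a⁻¹ * g)⁻¹ • P = g⁻¹ • a • P := by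
      rw [mul_inv_rev, inv_inv, mul_smul]
    have := ht P hP
    rw [e] at this
    exact this
  have ht : ∀ a : H, ∃ t : ℝ, a ∈ A → ∀ P : Y, dist o P ≤ max ρ₀ (3 * R) →
      |(dist U (g⁻¹ • a • P) - dist U' (g⁻¹ • a • P)) / 2 - (dist U P - dist U' P) / 2 - t| ≤ 4 * δ ∧
      |gp (g⁻¹ • a • P) U U' - gp P U U'| ≤ 8 * δ := by
    intro a
    by_cases ha : a ∈ A
    · obtain ⟨t, ht⟩ := hC' a ha
      exact ⟨t, fun _ => ht⟩
    · exact ⟨0, fun h' => absurd h' ha⟩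
  choose t ht using ht
  -- the shifts are separated
  have hgap : ∀ a ∈ A, ∀ b ∈ A, |t a - t b| ≤ 1 → a = b := by
    intro a ha b hb hab
    rw [hp a ha, hp b hb]
    apply hsep (p a) (p b) m₀
    rw [← hp a ha, ← hp b hb]
    obtain ⟨a1, a2⟩ := ht a ha m₀ hm₀
    obtain ⟨b1, b2⟩ := ht b hb m₀ hm₀
    have h4 := (R3a h U U' (g⁻¹ • a • m₀) (g⁻¹ • b • m₀)).1
    rw [dist_smul] at h4
    rw [hg₀, sub_zero] at a2 b2
    have a2' := abs_le.1 a2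
    have b2' := abs_le.1 b2
    have a1' := abs_le.1 a1
    have b1' := abs_le.1 b1
    have ab' := abs_le.1 hab
    have h5 : |(dist U (g⁻¹ • a • m₀) - dist U' (g⁻¹ • a • m₀)) / 2 -
        (dist U (g⁻¹ • b • m₀) - dist U' (g⁻¹ • b • m₀)) / 2| ≤ 8 * δ + 1 := by
      rw [abs_le]
      constructor <;> linarith
    linarith
  obtain ⟨a₁, h1, a₂, h2, a₃, h3, g12, g23⟩ := R3_pick A t G M hM hgap hcon
  have hball : ∀ a ∈ A, dist o (p a • o) ≤ max ρ₀ (3 * R) := fun a ha =>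
    le_trans (by linarith [hRa a ha]) (le_max_right _ _)
  obtain ⟨m, hm', hm⟩ := R3d h hδ hgeo U U' g a₁ a₃ hL (p a₁ • o) (p a₃ • o) (hPa a₁ h1) (hPa a₃ h3)
    g12 g23 (ht a₁ h1 _ (hball a₁ h1)) (ht a₃ h3 _ (hball a₃ h3))
  have hmb : dist o m ≤ max ρ₀ (3 * R) := by
    have q1 : dist (p a₃ • o) m ≤ dist (p a₃ • o) (p a₁ • o) := by
      linarith [dist_nonneg (x := m) (y := p a₁ • o)]
    have q2 : dist (p a₃ • o) (p a₁ • o) ≤ dist o (p a₃ • o) + dist o (p a₁ • o) := by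
      have := dist_triangle (p a₃ • o) o (p a₁ • o)
      rwa [dist_comm (p a₃ • o) o] at this
    have q3 := dist_triangle o (p a₃ • o) m
    refine le_trans ?_ (le_max_right _ _)
    linarith [hRa a₁ h1, hRa a₃ h3]
  have hfin := R3c h hδ hgeo U U' g a₁ a₂ a₃ hL (p a₁ • o) (p a₃ • o) m (hPa a₁ h1) (hPa a₃ h3)
    g12 g23 hm hm' (ht a₁ h1 _ (hball a₁ h1)) (ht a₃ h3 _ (hball a₃ h3)) (ht a₂ h2 m hmb)
  have e : dist m (a₂ • m) = dist ((p a₂)⁻¹ • m) (F • (p a₂)⁻¹ • m) := by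
    rw [← dist_smul (p a₂) ((p a₂)⁻¹ • m) (F • (p a₂)⁻¹ • m), smul_inv_smul]
    congr 1
    nth_rewrite 1 [hp a₂ h2]
    rw [mul_smul, mul_smul]
  rw [e] at hfin
  exact absurd hfin (not_le.2 (hF _))

end R3

end Pool.Agent.AcylTdc3
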