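import Pool.Agent.AcylTdc3.Sig

/-! BOARD T3, rows R4a and R4b. -/

open Filter Topology Set Pool.Agent.TwistedRatio Pool.Agent.AcylTdc

namespace Pool.Agent.AcylTdc3

section R4
variable {G K : Type*} [Group G] [Group K]

/-- values on the first `i` initial parts -/
private def vis (π : G →* K) (l : List G) (i : ℕ) : Set K :=
  {a | ∃ m, m ≤ i ∧ a = π (l.take m).prod}

private lemma vis_finite (π : G →* K) (l : List G) (i : ℕ) : (vis π l i).Finite := by
  have : vis π l i ⊆ (fun m => π (l.take m).prod) '' (Set.Iic i) := by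
    rintro a ⟨m, hm, rfl⟩
    exact ⟨m, hm, rfl⟩
  exact ((Set.finite_Iic i).image _).subset this

private lemma vis_mono (π : G →* K) (l : List G) {i j : ℕ} (h : i ≤ j) :
    vis π l i ⊆ vis π l j := by
  rintro a ⟨m, hm, rfl⟩
  exact ⟨m, hm.trans h, rfl⟩

private lemma vis_key {X : Set G} (π : G →* K) {l : List G} (hl : ∀ s ∈ l, s ∈ X ∨ s⁻¹ ∈ X) :
    ∀ i : ℕ, i ≤ l.length → π (l.take i).prod ∈ ball (π '' X) (vis π l i).ncard := by
  intro i
  induction i using Nat.strong_induction_on with
  | _ i ih =>
    intro hi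
    rcases i with _ | n
    · simp only [List.take_zero, List.prod_nil, map_one]
      exact one_mem_ball _ _
    · by_cases h : π (l.take (n + 1)).prod ∈ vis π l n
      · obtain ⟨m, hm, e⟩ := h
        rw [e]
        exact ball_mono (Set.ncard_le_ncard (vis_mono π l (by omega)) (vis_finite _ _ _))
          (ih m (by omega) (by omega))
      · have h1 := ih n (by omega) (by omega)
        have hn : n < l.length := by omega
        have h2 : π l[n] ∈ ball (π '' X) 1 := by
          refine ⟨[π l[n]], by simp, ?_, by simp⟩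
          intro s hs
          rw [List.mem_singleton] at hs
          subst hs
          rcases hl l[n] (List.getElem_mem hn) with h3 | h3
          · exact Or.inl ⟨_, h3, rfl⟩
          · exact Or.inr ⟨_, h3, by rw [map_inv]⟩
        have h3 : π (l.take (n + 1)).prod = π (l.take n).prod * π l[n] := by
          rw [List.take_succ_eq_append_getElem hn, List.prod_append, List.prod_singleton, map_mul]
        have h4 : (vis π l n).ncard + 1 ≤ (vis π l (n + 1)).ncard := by
          refine Set.ncard_lt_ncard ⟨vis_mono π l (by omega), fun hh => h ?_⟩ (vis_finite _ _ _)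
          exact hh ⟨n + 1, le_rfl, rfl⟩
        rw [h3]
        exact ball_mono h4 (ball_mul h1 h2)

/-- R4a. By strong induction on `i`: `π (l.take i).prod` is in the ball of radius
`(visited π (l.take i)).ncard`: if it is a new value the cardinality has grown by one, otherwise it equals
an earlier one. -/
theorem R4a {X : Set G} (π : G →* K) {l : List G} (hl : ∀ s ∈ l, s ∈ X ∨ s⁻¹ ∈ X) {V : ℕ}
    (hV : (visited π l).ncard ≤ V) : visited π l ⊆ ball (π '' X) V := by
  rintro a ⟨i, hi, rfl⟩
  have h1 := vis_key π hl i hi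
  have h2 : vis π l i ⊆ visited π l := by
    rintro a ⟨m, hm, rfl⟩
    exact ⟨m, hm.trans hi, rfl⟩
  have h3 : (visited π l).Finite := by
    have : visited π l = vis π l l.length := rfl
    rw [this]
    exact vis_finite _ _ _
  exact ball_mono ((Set.ncard_le_ncard h2 h3).trans hV) h1

/-- R4b. `a ↦ (a F a⁻¹, a F' a⁻¹)` on the visited set has fibres inside left cosets of `E`; and
`conjs (e F) l` is the image of `{a F a⁻¹}` under the injective `e` (hypothesis `he`). -/
theorem R4b (π : G →* K) (F F' : K) (E : Set K) (hE : E.Finite)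
    (hcomm : ∀ c : K, c * F = F * c → c * F' = F' * c → c ∈ E) (eF eF' : G)
    (he : ∀ p q : G, p * eF * p⁻¹ = q * eF * q⁻¹ ↔ π p * F * (π p)⁻¹ = π q * F * (π q)⁻¹)
    (he' : ∀ p q : G, p * eF' * p⁻¹ = q * eF' * q⁻¹ ↔ π p * F' * (π p)⁻¹ = π q * F' * (π q)⁻¹)
    (l : List G) :
    (visited π l).ncard ≤ E.ncard * ((conjs eF l).ncard * (conjs eF' l).ncard) := by
  classical
  have hcf : ∀ f : G, (conjs f l).Finite := by
    intro f
    have : conjs f l ⊆ (fun i => (l.take i).prod * f * ((l.take i).prod)⁻¹) ''
        (Set.Iic l.length) := by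
      rintro a ⟨i, hi, rfl⟩
      exact ⟨i, hi, rfl⟩
    exact ((Set.finite_Iic _).image _).subset this
  have hvf : (visited π l).Finite := vis_finite π l l.length
  -- choose an index for every visited value
  have hch : ∀ a : K, ∃ i : ℕ, a ∈ visited π l → i ≤ l.length ∧ a = π (l.take i).prod := by
    intro a
    by_cases ha : a ∈ visited π l
    · obtain ⟨i, hi, e⟩ := ha
      exact ⟨i, fun _ => ⟨hi, e⟩⟩
    · exact ⟨0, fun h => absurd h ha⟩
  choose ix hix using hch
  let P : K → G := fun a => (l.take (ix a)).prod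
  let Φ : K → G × G := fun a => (P a * eF * (P a)⁻¹, P a * eF' * (P a)⁻¹)
  have hP : ∀ a ∈ visited π l, π (P a) = a := fun a ha => ((hix a ha).2).symm
  have hmaps : ∀ a ∈ hvf.toFinset, Φ a ∈ (hcf eF).toFinset ×ˢ (hcf eF').toFinset := by
    intro a ha
    rw [Set.Finite.mem_toFinset] at ha
    rw [Finset.mem_product, Set.Finite.mem_toFinset, Set.Finite.mem_toFinset]
    exact ⟨⟨ix a, (hix a ha).1, rfl⟩, ⟨ix a, (hix a ha).1, rfl⟩⟩
  have hfib : ∀ b ∈ (hcf eF).toFinset ×ˢ (hcf eF').toFinset,
      (hvf.toFinset.filter (fun a => Φ a = b)).card ≤ E.ncard := by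
    intro b _
    rcases (hvf.toFinset.filter (fun a => Φ a = b)).eq_empty_or_nonempty with h0 | ⟨a, ha⟩
    · rw [h0]; simp
    · rw [Finset.mem_filter, Set.Finite.mem_toFinset] at ha
      have hsub : hvf.toFinset.filter (fun a => Φ a = b) ⊆ hE.toFinset.image (fun c => a * c) := by
        intro x hx
        rw [Finset.mem_filter, Set.Finite.mem_toFinset] at hx
        rw [Finset.mem_image]
        refine ⟨a⁻¹ * x, ?_, by group⟩
        rw [Set.Finite.mem_toFinset]
        have e0 : Φ x = Φ a := hx.2.trans ha.2.symm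
        have e1 : P x * eF * (P x)⁻¹ = P a * eF * (P a)⁻¹ := congrArg Prod.fst e0
        have e2 : P x * eF' * (P x)⁻¹ = P a * eF' * (P a)⁻¹ := congrArg Prod.snd e0
        rw [he, hP x hx.1, hP a ha.1] at e1
        rw [he', hP x hx.1, hP a ha.1] at e2
        have key : ∀ f : K, x * f * x⁻¹ = a * f * a⁻¹ → a⁻¹ * x * f = f * (a⁻¹ * x) := by
          intro f hf
          have h1 : x * f = a * f * a⁻¹ * x := by
            rw [← hf]; group
          calc a⁻¹ * x * f = a⁻¹ * (x * f) := by group
            _ = a⁻¹ * (a * f * a⁻¹ * x) := by rw [h1]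
            _ = f * (a⁻¹ * x) := by group
        exact hcomm _ (key F e1) (key F' e2)
      calc (hvf.toFinset.filter (fun a => Φ a = b)).card
          ≤ (hE.toFinset.image (fun c => a * c)).card := Finset.card_le_card hsub
        _ ≤ hE.toFinset.card := Finset.card_image_le
        _ = E.ncard := (Set.ncard_eq_toFinset_card E hE).symm
  have h := Finset.card_le_mul_card_image_of_maps_to hmaps E.ncard hfib
  rw [Finset.card_product, ← Set.ncard_eq_toFinset_card _ (hcf eF),
    ← Set.ncard_eq_toFinset_card _ (hcf eF'), ← Set.ncard_eq_toFinset_card _ hvf] at h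
  exact h

end R4

end Pool.Agent.AcylTdc3
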