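import Pool.Agent.AcylTdc3.Sig

/-! Row R6: counting of rectangles. -/

open Filter Topology Set Pool.Agent.TwistedRatio Pool.Agent.AcylTdc

namespace Pool.Agent.AcylTdc3

section R6
variable {ι : Type*} [Fintype ι] [DecidableEq ι] {H : ι → Type*} [∀ i, Group (H i)]

omit [Fintype ι] [DecidableEq ι] in
private theorem R6_fin {X : Set (∀ i, H i)} (hX : X.Finite) (I : Finset ι) (u : ∀ i, H i) (s : ℕ) :
    {g : ∀ i, H i | g ∈ ball X s ∧ ∀ i, i ∉ I → g i = u i}.Finite :=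
  (ball_finite hX s).subset (fun _ h => h.1)

omit [Fintype ι] [DecidableEq ι] in
private theorem R6_le_ball {X : Set (∀ i, H i)} (hX : X.Finite) (I : Finset ι) (u : ∀ i, H i) (s : ℕ) :
    cnt X I u s ≤ (ball X s).ncard :=
  Set.ncard_le_ncard (fun _ h => h.1) (ball_finite hX s)

omit [Fintype ι] [DecidableEq ι] in
private theorem R6_max {X : Set (∀ i, H i)} (hX : X.Finite) (I : Finset ι) (s : ℕ) :
    ∃ u : ∀ i, H i, ∀ v, cnt X I v s ≤ cnt X I u s := by
  have hne : (Set.range (fun u : ∀ i, H i => cnt X I u s)).Nonempty := Set.range_nonempty _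
  have hbd : BddAbove (Set.range (fun u : ∀ i, H i => cnt X I u s)) := by
    refine ⟨(ball X s).ncard, ?_⟩
    rintro _ ⟨u, rfl⟩
    exact R6_le_ball hX I u s
  obtain ⟨u, hu⟩ := Nat.sSup_mem hne hbd
  refine ⟨u, fun v => ?_⟩
  have h1 : cnt X I v s ≤ sSup (Set.range (fun u : ∀ i, H i => cnt X I u s)) :=
    le_csSup hbd ⟨v, rfl⟩
  rw [← hu] at h1
  exact h1

omit [Fintype ι] [DecidableEq ι] in
private theorem R6_mono {X : Set (∀ i, H i)} (hX : X.Finite) (I : Finset ι) (u : ∀ i, H i)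
    {s t : ℕ} (h : s ≤ t) : cnt X I u s ≤ cnt X I u t :=
  Set.ncard_le_ncard (fun _ hg => ⟨ball_mono h hg.1, hg.2⟩) (R6_fin hX I u t)

omit [Fintype ι] [DecidableEq ι] in
private theorem R6_pow {X : Set (∀ i, H i)} (I : Finset ι) (D : ℕ)
    (hD : ∀ (u : ∀ i, H i) (s : ℕ), 3 * cnt X I u s ≤ cnt X I u (s + D)) (u : ∀ i, H i) (s k : ℕ) :
    3 ^ k * cnt X I u s ≤ cnt X I u (s + D * k) := by
  induction k with
  | zero => simp
  | succ k ih =>
    have h1 := hD u (s + D * k)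
    have h2 : s + D * (k + 1) = s + D * k + D := by ring
    rw [h2, pow_succ]
    calc 3 ^ k * 3 * cnt X I u s = 3 * (3 ^ k * cnt X I u s) := by ring
      _ ≤ 3 * cnt X I u (s + D * k) := Nat.mul_le_mul_left 3 ih
      _ ≤ _ := h1

/-- the rectangle -/
private def Rct (X : Set (∀ i, H i)) (I J : Finset ι) (u v : ∀ i, H i) (s t : ℕ) : Set (∀ i, H i) :=
  (fun p : (∀ i, H i) × (∀ i, H i) => p.1 * p.2) ''
    ({g | g ∈ ball X s ∧ ∀ i, i ∉ I → g i = u i} ×ˢ {g | g ∈ ball X t ∧ ∀ i, i ∉ J → g i = v i})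

omit [Fintype ι] [DecidableEq ι] in
private theorem R6_sub (X : Set (∀ i, H i)) (I J : Finset ι) (u v : ∀ i, H i) (s t : ℕ) :
    Rct X I J u v s t ⊆ ball X (s + t) := by
  rintro _ ⟨⟨x, y⟩, ⟨hx, hy⟩, rfl⟩
  exact ball_mul hx.1 hy.1

omit [Fintype ι] [DecidableEq ι] in
private theorem R6_card {X : Set (∀ i, H i)} {I J : Finset ι} (hIJ : Disjoint I J)
    (u v : ∀ i, H i) (s t : ℕ) :
    (Rct X I J u v s t).ncard = cnt X I u s * cnt X J v t := by
  unfold Rct cnt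
  rw [Set.InjOn.ncard_image, Set.ncard_prod]
  rintro ⟨x, y⟩ ⟨hx, hy⟩ ⟨x', y'⟩ ⟨hx', hy'⟩ h
  have h : x * y = x' * y' := h
  have hx2 : ∀ i, i ∉ I → x i = u i := hx.2
  have hy2 : ∀ i, i ∉ J → y i = v i := hy.2
  have hx2' : ∀ i, i ∉ I → x' i = u i := hx'.2
  have hy2' : ∀ i, i ∉ J → y' i = v i := hy'.2
  have hc : ∀ i, x i * y i = x' i * y' i := fun i => congrFun h i
  have e1 : x = x' := by
    funext i
    by_cases hi : i ∈ I
    · have hj : i ∉ J := fun hj => (Finset.disjoint_left.1 hIJ hi) hj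
      have := hc i
      rw [hy2 i hj, hy2' i hj] at this
      exact mul_right_cancel this
    · rw [hx2 i hi, hx2' i hi]
  subst e1
  have e2 : y = y' := mul_left_cancel h
  rw [e2]

omit [Fintype ι] in
private theorem R6_inter {X : Set (∀ i, H i)} (hX : X.Finite) {I J : Finset ι} (hIJ : Disjoint I J)
    (u v u' v' : ∀ i, H i) (s t s' t' : ℕ) :
    (Rct X I J u v s t ∩ Rct X I J u' v' s' t').ncard ≤ cnt X I u s * cnt X J v' t' := by
  have hfin : ({g | g ∈ ball X s ∧ ∀ i, i ∉ I → g i = u i} ×ˢ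
      {g | g ∈ ball X t' ∧ ∀ i, i ∉ J → g i = v' i} : Set ((∀ i, H i) × (∀ i, H i))).Finite :=
    (R6_fin hX I u s).prod (R6_fin hX J v' t')
  have hsub : Rct X I J u v s t ∩ Rct X I J u' v' s' t' ⊆
      (fun p : (∀ i, H i) × (∀ i, H i) => fun i => if i ∈ I then p.1 i * v i else u' i * p.2 i) ''
      ({g | g ∈ ball X s ∧ ∀ i, i ∉ I → g i = u i} ×ˢ {g | g ∈ ball X t' ∧ ∀ i, i ∉ J → g i = v' i}) := by
    rintro z ⟨⟨⟨x, y⟩, ⟨hx, hy⟩, hz⟩, ⟨⟨x', y'⟩, ⟨hx', hy'⟩, hz'⟩⟩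
    have hz : x * y = z := hz
    have hz' : x' * y' = z := hz'
    refine ⟨(x, y'), ⟨hx, hy'⟩, ?_⟩
    funext i
    by_cases hi : i ∈ I
    · have hj : i ∉ J := fun hj => (Finset.disjoint_left.1 hIJ hi) hj
      simp only [if_pos hi]
      rw [← hy.2 i hj, ← hz]
      rfl
    · simp only [if_neg hi]
      rw [← hx'.2 i hi, ← hz']
      rfl
  calc (Rct X I J u v s t ∩ Rct X I J u' v' s' t').ncard ≤ _ :=
        Set.ncard_le_ncard hsub (hfin.image _)
    _ ≤ _ := Set.ncard_image_le hfin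
    _ = cnt X I u s * cnt X J v' t' := by rw [Set.ncard_prod]; rfl

omit [Fintype ι] [DecidableEq ι] in
private theorem R6_bonf {G : Type*} (P : ℕ → Set G) (hP : ∀ j, (P j).Finite) (c m : ℕ)
    (h : ∀ j < m, ∀ k < j, (P k ∩ P j).ncard ≤ c) :
    ∑ j ∈ Finset.range m, (P j).ncard ≤ (⋃ j ∈ Finset.range m, P j).ncard + m * m * c := by
  classical
  have hU : ∀ r : ℕ, (⋃ j ∈ Finset.range r, P j).Finite := fun r =>
    Set.Finite.biUnion (Finset.finite_toSet _) (fun j _ => hP j)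
  have hUs : ∀ r : ℕ, (⋃ j ∈ Finset.range (r + 1), P j) = (⋃ j ∈ Finset.range r, P j) ∪ P r := by
    intro r
    rw [Finset.range_add_one, Finset.set_biUnion_insert, Set.union_comm]
  have hA : ∀ (Q : Set G) (r : ℕ), Q.Finite → (∀ k < r, (P k ∩ Q).ncard ≤ c) →
      ((⋃ j ∈ Finset.range r, P j) ∩ Q).ncard ≤ r * c := by
    intro Q r hQ
    induction r with
    | zero => intro _; simp
    | succ r ih =>
      intro hr
      rw [hUs, Set.union_inter_distrib_right]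
      have h1 := ih (fun k hk => hr k (Nat.lt_succ_of_lt hk))
      have h2 := hr r (Nat.lt_succ_self r)
      have h3 := Set.ncard_union_le ((⋃ j ∈ Finset.range r, P j) ∩ Q) (P r ∩ Q)
      calc _ ≤ _ := h3
        _ ≤ r * c + c := Nat.add_le_add h1 h2
        _ = (r + 1) * c := by ring
  induction m with
  | zero => simp
  | succ m ih =>
    have h1 := ih (fun j hj k hk => h j (Nat.lt_succ_of_lt hj) k hk)
    have h2 := hA (P m) m (hP m) (fun k hk => h m (Nat.lt_succ_self m) k hk)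
    have h3 := Set.ncard_union_add_ncard_inter (⋃ j ∈ Finset.range m, P j) (P m) (hU m) (hP m)
    rw [Finset.sum_range_succ, hUs]
    have h4 : (m + 1) * (m + 1) * c = m * m * c + m * c + (m + 1) * c := by ring
    rw [h4]
    omega

theorem R6 {X : Set (∀ i, H i)} (hX : X.Finite) (I J : Finset ι) (hIJ : Disjoint I J) (D : ℕ)
    (hD : ∀ (u : ∀ i, H i) (s : ℕ), 3 * cnt X I u s ≤ cnt X I u (s + D)) {η : ℝ} (hη : 0 < η) :
    ∃ n₀ : ℕ, ∀ n ≥ n₀,
      (∀ s ≤ n, ∃ u u' : ∀ i, H i,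
        η * ((ball X n).ncard : ℝ) ≤ (cnt X I u s : ℝ) * (cnt X I u' (n - s) : ℝ)) →
      (∀ s ≤ n, ∃ v v' : ∀ i, H i,
        η * ((ball X n).ncard : ℝ) ≤ (cnt X J v s : ℝ) * (cnt X J v' (n - s) : ℝ)) → False := by
  classical
  obtain ⟨L, hL⟩ := exists_nat_gt (2 / η)
  have hL2 : 2 < (L : ℝ) * η := by rwa [div_lt_iff₀ hη] at hL
  obtain ⟨k, hk⟩ : ∃ k : ℕ, L * L ≤ 3 ^ k := ⟨L * L, (Nat.lt_pow_self (by norm_num)).le⟩
  let D' := D * k + 1
  refine ⟨2 * L * D', fun n hn hI hJ => ?_⟩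
  choose uI huI using fun s => R6_max hX I s
  choose vJ hvJ using fun s => R6_max hX J s
  set b := (ball X n).ncard with hb
  have hbpos : 0 < b := ncard_ball_pos hX n
  have hbR : (0 : ℝ) < (b : ℝ) := by exact_mod_cast hbpos
  -- one of the two mixed products is large
  have hmix : ∀ s ≤ n, ∃ s', (s' = s ∨ s' = n - s) ∧
      η * (b : ℝ) ≤ (cnt X I (uI s') s' : ℝ) * (cnt X J (vJ (n - s')) (n - s') : ℝ) := by
    intro s hs
    obtain ⟨u, u', h1⟩ := hI s hs
    obtain ⟨v, v', h2⟩ := hJ s hs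
    have a1 : (cnt X I u s : ℝ) ≤ cnt X I (uI s) s := by exact_mod_cast huI s u
    have a2 : (cnt X I u' (n - s) : ℝ) ≤ cnt X I (uI (n - s)) (n - s) := by exact_mod_cast huI _ u'
    have a3 : (cnt X J v s : ℝ) ≤ cnt X J (vJ s) s := by exact_mod_cast hvJ s v
    have a4 : (cnt X J v' (n - s) : ℝ) ≤ cnt X J (vJ (n - s)) (n - s) := by exact_mod_cast hvJ _ v'
    have h1' : η * (b : ℝ) ≤ (cnt X I (uI s) s : ℝ) * (cnt X I (uI (n - s)) (n - s) : ℝ) :=
      h1.trans (mul_le_mul a1 a2 (Nat.cast_nonneg _) (Nat.cast_nonneg _))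
    have h2' : η * (b : ℝ) ≤ (cnt X J (vJ s) s : ℝ) * (cnt X J (vJ (n - s)) (n - s) : ℝ) :=
      h2.trans (mul_le_mul a3 a4 (Nat.cast_nonneg _) (Nat.cast_nonneg _))
    have hss : n - (n - s) = s := Nat.sub_sub_self hs
    by_contra hcon
    push Not at hcon
    have c1 := hcon s (Or.inl rfl)
    have c2 := hcon (n - s) (Or.inr rfl)
    rw [hss] at c2
    have hηb : 0 < η * (b : ℝ) := mul_pos hη hbR
    have p1 := mul_le_mul h1' h2' hηb.le (by positivity)
    have p2 := mul_lt_mul'' c1 c2 (by positivity) (by positivity)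
    have p3 : (cnt X I (uI s) s : ℝ) * (cnt X I (uI (n - s)) (n - s) : ℝ) *
        ((cnt X J (vJ s) s : ℝ) * (cnt X J (vJ (n - s)) (n - s) : ℝ)) =
        (cnt X I (uI s) s : ℝ) * (cnt X J (vJ (n - s)) (n - s) : ℝ) *
        ((cnt X I (uI (n - s)) (n - s) : ℝ) * (cnt X J (vJ s) s : ℝ)) := by ring
    rw [p3] at p1
    exact absurd (lt_of_le_of_lt p1 p2) (lt_irrefl _)
  have hjn : ∀ j < L, j * D' ≤ n := by
    intro j hj
    calc j * D' ≤ 2 * L * D' := Nat.mul_le_mul_right _ (by omega)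
      _ ≤ n := hn
  have hσ : ∀ j, ∃ s', j < L → (s' = j * D' ∨ s' = n - j * D') ∧
      η * (b : ℝ) ≤ (cnt X I (uI s') s' : ℝ) * (cnt X J (vJ (n - s')) (n - s') : ℝ) := by
    intro j
    by_cases hj : j < L
    · obtain ⟨s', h⟩ := hmix (j * D') (hjn j hj)
      exact ⟨s', fun _ => h⟩
    · exact ⟨0, fun h => absurd h hj⟩
  choose σ hσ using hσ
  let P : ℕ → Set (∀ i, H i) := fun s => Rct X I J (uI s) (vJ (n - s)) s (n - s)
  have hPsub : ∀ s ≤ n, P s ⊆ ball X n := by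
    intro s hs
    have := R6_sub X I J (uI s) (vJ (n - s)) s (n - s)
    rwa [Nat.add_sub_cancel' hs] at this
  have hfar : ∀ s s', s + D' ≤ s' → s' ≤ n → 3 ^ k * (P s ∩ P s').ncard ≤ b := by
    intro s s' h1 h2
    have e1 := R6_inter hX hIJ (uI s) (vJ (n - s)) (uI s') (vJ (n - s')) s (n - s) s' (n - s')
    have e2 := R6_pow I D hD (uI s) s k
    have e3 : cnt X I (uI s) (s + D * k) ≤ cnt X I (uI s) s' :=
      R6_mono hX I (uI s) (by have : D' = D * k + 1 := rfl; omega)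
    have e4 := huI s' (uI s)
    have e5 : (P s').ncard = cnt X I (uI s') s' * cnt X J (vJ (n - s')) (n - s') :=
      R6_card hIJ _ _ _ _
    have e6 : (P s').ncard ≤ b := Set.ncard_le_ncard (hPsub s' h2) (ball_finite hX n)
    calc 3 ^ k * (P s ∩ P s').ncard ≤ 3 ^ k * (cnt X I (uI s) s * cnt X J (vJ (n - s')) (n - s')) :=
          Nat.mul_le_mul_left _ e1
      _ = (3 ^ k * cnt X I (uI s) s) * cnt X J (vJ (n - s')) (n - s') := by ring
      _ ≤ cnt X I (uI s') s' * cnt X J (vJ (n - s')) (n - s') :=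
          Nat.mul_le_mul_right _ (e2.trans (e3.trans e4))
      _ ≤ b := by rw [← e5]; exact e6
  have hσn : ∀ j < L, σ j ≤ n := by
    intro j hj
    rcases (hσ j hj).1 with h | h
    · rw [h]; exact hjn j hj
    · rw [h]; exact Nat.sub_le _ _
  have hsep : ∀ j < L, ∀ i < j, σ i + D' ≤ σ j ∨ σ j + D' ≤ σ i := by
    intro j hj i hi
    have h1 : i * D' + D' ≤ j * D' := by
      calc i * D' + D' = (i + 1) * D' := by ring
        _ ≤ j * D' := Nat.mul_le_mul_right _ hi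
    have h2 : i * D' + j * D' + D' ≤ n := by
      calc i * D' + j * D' + D' = (i + j + 1) * D' := by ring
        _ ≤ 2 * L * D' := Nat.mul_le_mul_right _ (by omega)
        _ ≤ n := hn
    rcases (hσ j hj).1 with h | h <;> rcases (hσ i (hi.trans hj)).1 with h' | h' <;> rw [h, h'] <;> omega
  have hcard : ∀ j < L, ∀ i < j, (P (σ i) ∩ P (σ j)).ncard ≤ b / 3 ^ k := by
    intro j hj i hi
    rw [Nat.le_div_iff_mul_le (by positivity), mul_comm]
    rcases hsep j hj i hi with h | h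
    · exact hfar _ _ h (hσn j hj)
    · rw [Set.inter_comm]
      exact hfar _ _ h (hσn i (hi.trans hj))
  have hPfin : ∀ s, (P s).Finite := fun s =>
    (ball_finite hX _).subset (R6_sub X I J (uI s) (vJ (n - s)) s (n - s))
  have hB := R6_bonf (fun j => P (σ j)) (fun j => hPfin _) (b / 3 ^ k) L hcard
  have hU : (⋃ j ∈ Finset.range L, P (σ j)).ncard ≤ b := by
    refine Set.ncard_le_ncard ?_ (ball_finite hX n)
    intro x hx
    simp only [Set.mem_iUnion, Finset.mem_range] at hx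
    obtain ⟨j, hj, hx⟩ := hx
    exact hPsub _ (hσn j hj) hx
  have hc : L * L * (b / 3 ^ k) ≤ b := by
    calc L * L * (b / 3 ^ k) ≤ 3 ^ k * (b / 3 ^ k) := Nat.mul_le_mul_right _ hk
      _ ≤ b := Nat.mul_div_le _ _
  have hT : ∑ j ∈ Finset.range L, (P (σ j)).ncard ≤ 2 * b := by
    have hB' : ∑ j ∈ Finset.range L, (P (σ j)).ncard ≤
      (⋃ j ∈ Finset.range L, P (σ j)).ncard + L * L * (b / 3 ^ k) := hB
    omega
  have hT' : (∑ j ∈ Finset.range L, ((P (σ j)).ncard : ℝ)) ≤ 2 * (b : ℝ) := by exact_mod_cast hT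
  have hlow : (L : ℝ) * (η * (b : ℝ)) ≤ ∑ j ∈ Finset.range L, ((P (σ j)).ncard : ℝ) := by
    have : ∑ j ∈ Finset.range L, (η * (b : ℝ)) ≤ ∑ j ∈ Finset.range L, ((P (σ j)).ncard : ℝ) := by
      refine Finset.sum_le_sum (fun j hj => ?_)
      have h1 := (hσ j (Finset.mem_range.1 hj)).2
      have h2 : (P (σ j)).ncard = cnt X I (uI (σ j)) (σ j) * cnt X J (vJ (n - σ j)) (n - σ j) :=
        R6_card hIJ _ _ _ _
      rw [h2]
      push_cast
      exact h1
    rw [Finset.sum_const, Finset.card_range, nsmul_eq_mul] at this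
    exact this
  nlinarith [hlow, hT', hL2, hbR]

end R6

end Pool.Agent.AcylTdc3
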