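import Pool.Agent.AcylTdc3.Sig

/-! BOARD T3, row R7. -/

open Filter Topology Set Pool.Agent.TwistedRatio Pool.Agent.AcylTdc

namespace Pool.Agent.AcylTdc3

section R7
variable {ι : Type*} [Fintype ι] [DecidableEq ι] {H : ι → Type*} [∀ i, Group (H i)]

/-- R7 (cut). `x = (l.take s).prod * (l.drop s).prod`; the first factor is in `ball X s` and has its
coordinates outside `I` in `Bf`, so they are `u` (one of at most `∏ |Bf i|` functions, extended by `1` on
`I`), and those of the second factor are `(u i)⁻¹ * w i` with `w i ∈ Bf i`. -/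
theorem R7 {X : Set (∀ i, H i)} (hX : X.Finite) (I : Finset ι) (Bf : ∀ i, Finset (H i))
    (n s : ℕ) (hs : s ≤ n) (S : Set (∀ i, H i))
    (hS : ∀ x ∈ S, ∃ l : List (∀ i, H i), l.length ≤ n ∧ (∀ a ∈ l, a ∈ X ∨ a⁻¹ ∈ X) ∧ l.prod = x ∧
      ∀ i, i ∉ I → visited (Pi.evalMonoidHom H i) l ⊆ ↑(Bf i)) :
    ∃ u u' : ∀ i, H i,
      S.ncard ≤ (∏ i, ((Bf i).card + 1)) ^ 2 * (cnt X I u s * cnt X I u' (n - s)) := by
  classical
  let U : Finset (∀ i, H i) := Fintype.piFinset (fun i => if i ∈ I then {1} else Bf i)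
  have hU : U.card ≤ ∏ i, ((Bf i).card + 1) := by
    rw [Fintype.card_piFinset]
    refine Finset.prod_le_prod' ?_
    intro i _
    split_ifs
    · simp
    · omega
  have hf : ∀ (u : ∀ i, H i) (m : ℕ),
      {g : ∀ i, H i | g ∈ ball X m ∧ ∀ i, i ∉ I → g i = u i}.Finite :=
    fun u m => (ball_finite hX m).subset (fun g hg => hg.1)
  have hc : ∀ (u : ∀ i, H i) (m : ℕ), (hf u m).toFinset.card = cnt X I u m := by
    intro u m
    unfold cnt
    rw [Set.ncard_eq_toFinset_card _ (hf u m)]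
  let T : Finset (∀ i, H i) := (U ×ˢ U).biUnion (fun p =>
    Finset.image₂ (fun g h => g * h) (hf p.1 s).toFinset (hf (p.1⁻¹ * p.2) (n - s)).toFinset)
  have hST : S ⊆ ↑T := by
    intro x hx
    obtain ⟨l, hl1, hl2, hl3, hl4⟩ := hS x hx
    have hvis : ∀ m : ℕ, ∀ i, i ∉ I → ((l.take m).prod : ∀ i, H i) i ∈ Bf i := by
      intro m i hi
      have h := hl4 i hi
      rcases le_or_gt m l.length with hm | hm
      · exact h ⟨m, hm, rfl⟩
      · rw [List.take_of_length_le hm.le]
        have := h (⟨l.length, le_rfl, rfl⟩ : Pi.evalMonoidHom H i (l.take l.length).prod ∈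
          visited (Pi.evalMonoidHom H i) l)
        rw [List.take_length] at this
        exact this
    have hxi : ∀ i, i ∉ I → x i ∈ Bf i := by
      intro i hi
      have := hvis l.length i hi
      rw [List.take_length, hl3] at this
      exact this
    let p : ∀ i, H i := (l.take s).prod
    let q : ∀ i, H i := (l.drop s).prod
    have hpq : p * q = x := by
      rw [← hl3]
      exact List.prod_take_mul_prod_drop l s
    let u : ∀ i, H i := fun i => if i ∈ I then 1 else p i
    let w : ∀ i, H i := fun i => if i ∈ I then 1 else x i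
    have hu : u ∈ U := by
      rw [Fintype.mem_piFinset]
      intro i
      by_cases hi : i ∈ I
      · simp [u, hi]
      · simp only [u, hi, if_false]
        exact hvis s i hi
    have hw : w ∈ U := by
      rw [Fintype.mem_piFinset]
      intro i
      by_cases hi : i ∈ I
      · simp [w, hi]
      · simp only [w, hi, if_false]
        exact hxi i hi
    rw [Finset.mem_coe, Finset.mem_biUnion]
    refine ⟨(u, w), Finset.mk_mem_product hu hw, ?_⟩
    rw [Finset.mem_image₂]
    refine ⟨p, ?_, q, ?_, hpq⟩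
    · rw [Set.Finite.mem_toFinset]
      refine ⟨⟨l.take s, List.length_take_le s l, fun a ha => hl2 a (List.mem_of_mem_take ha), rfl⟩,
        ?_⟩
      intro i hi
      simp [u, hi]
    · rw [Set.Finite.mem_toFinset]
      refine ⟨⟨l.drop s, ?_, fun a ha => hl2 a (List.mem_of_mem_drop ha), rfl⟩, ?_⟩
      · rw [List.length_drop]; omega
      · intro i hi
        have e : x i = p i * q i := by rw [← hpq]; rfl
        simp only [Pi.mul_apply, Pi.inv_apply, u, w, hi, if_false]
        rw [e]; group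
  have hcard : S.ncard ≤ ∑ p ∈ U ×ˢ U, cnt X I p.1 s * cnt X I (p.1⁻¹ * p.2) (n - s) := by
    calc S.ncard ≤ (↑T : Set (∀ i, H i)).ncard := Set.ncard_le_ncard hST T.finite_toSet
      _ = T.card := Set.ncard_coe_finset T
      _ ≤ ∑ p ∈ U ×ˢ U, (Finset.image₂ (fun g h => g * h) (hf p.1 s).toFinset
            (hf (p.1⁻¹ * p.2) (n - s)).toFinset).card := Finset.card_biUnion_le
      _ ≤ ∑ p ∈ U ×ˢ U, cnt X I p.1 s * cnt X I (p.1⁻¹ * p.2) (n - s) := by
          refine Finset.sum_le_sum fun p _ => ?_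
          rw [← hc, ← hc]
          exact Finset.card_image₂_le _ _ _
  rcases (U ×ˢ U).eq_empty_or_nonempty with h0 | h0
  · rw [h0, Finset.sum_empty] at hcard
    exact ⟨1, 1, hcard.trans (Nat.zero_le _)⟩
  · obtain ⟨p, _, hmax⟩ := Finset.exists_max_image (U ×ˢ U)
      (fun p => cnt X I p.1 s * cnt X I (p.1⁻¹ * p.2) (n - s)) h0
    refine ⟨p.1, p.1⁻¹ * p.2, ?_⟩
    calc S.ncard ≤ ∑ p ∈ U ×ˢ U, cnt X I p.1 s * cnt X I (p.1⁻¹ * p.2) (n - s) := hcard
      _ ≤ (U ×ˢ U).card • (cnt X I p.1 s * cnt X I (p.1⁻¹ * p.2) (n - s)) :=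
          Finset.sum_le_card_nsmul _ _ _ hmax
      _ ≤ (∏ i, ((Bf i).card + 1)) ^ 2 * (cnt X I p.1 s * cnt X I (p.1⁻¹ * p.2) (n - s)) := by
          rw [smul_eq_mul, Finset.card_product, sq]
          exact Nat.mul_le_mul_right _ (Nat.mul_le_mul hU hU)

end R7

end Pool.Agent.AcylTdc3
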