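import Pool.Agent.AcylTdc3.R1
import Pool.Agent.AcylTdc3.R2
import Pool.Agent.AcylTdc3.R3
import Pool.Agent.AcylTdc3.R4
import Pool.Agent.AcylTdc3.R6
import Pool.Agent.AcylTdc3.R7
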