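import Pool.Agent.AcylTdc3.CI
import Pool.Agent.AcylTdc3.Rows2

/-! Combinatorial assembly for direct products. -/

open Filter Topology Set Pool.Agent.TwistedRatio Pool.Agent.AcylTdc

namespace Pool.Agent.AcylTdc3

/-- what is needed about every factor -/
structure Pack (H : Type*) [Group H] (F F' : H) (E : Set H) (N N₀ : ℕ) : Prop where
  fin : E.Finite
  comm : ∀ c : H, c * F = F * c → c * F' = F' * c → c ∈ E
  pos : 1 ≤ N₀
  mult : ∀ S₁ : Finset H, N + 1 ≤ S₁.card → ∀ y₀ : H,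
    Mult F {y | ∀ x ∈ S₁, (y * y₀⁻¹) * x = x * (y * y₀⁻¹)} N₀ ∧
    Mult F' {y | ∀ x ∈ S₁, (y * y₀⁻¹) * x = x * (y * y₀⁻¹)} N₀

variable {ι : Type*} [Fintype ι] [DecidableEq ι] {H : ι → Type*} [∀ i, Group (H i)]

theorem conj_single (i : ι) (p : ∀ i, H i) (x : H i) :
    p * Pi.mulSingle i x * p⁻¹ = Pi.mulSingle i (p i * x * (p i)⁻¹) := by
  funext j
  by_cases hj : j = i
  · subst hj
    simp
  · simp [Pi.mulSingle_eq_of_ne hj]

theorem conj_single_iff (i : ι) (x : H i) (p q : ∀ i, H i) :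
    p * Pi.mulSingle i x * p⁻¹ = q * Pi.mulSingle i x * q⁻¹ ↔
      p i * x * (p i)⁻¹ = q i * x * (q i)⁻¹ := by
  rw [conj_single, conj_single]
  exact (Pi.mulSingle_injective i).eq_iff

/-- multiplicity lifts to the product -/
theorem mult_lift (i : ι) {F : H i} {S_H : Set (H i)} {N₀ : ℕ} (h : Mult F S_H N₀)
    (S : Set (∀ i, H i)) (hS : ∀ g ∈ S, g i ∈ S_H) : Mult (Pi.mulSingle i F) S N₀ := by
  classical
  intro g A hA
  have h1 : A.card = (A.image fun a => a i).card := by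
    rw [Finset.card_image_of_injOn]
    intro a ha b hb hab
    obtain ⟨p, rfl⟩ := (hA a ha).1
    obtain ⟨q, rfl⟩ := (hA b hb).1
    rw [conj_single_iff]
    simpa using hab
  rw [h1]
  refine h (g i) _ ?_
  intro x hx
  obtain ⟨a, ha, rfl⟩ := Finset.mem_image.1 hx
  obtain ⟨⟨p, hp⟩, ha2⟩ := hA a ha
  refine ⟨⟨p i, ?_⟩, ?_⟩
  · rw [hp]
    simp
  · exact hS _ ha2

/-- elements that are spread in the coordinate `i` and have their `i`-th coordinate in a set with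
bounded multiplicity are negligible -/
theorem spread_bound {X : Set (∀ i, H i)} (hX : X.Finite) (hgen : Subgroup.closure X = ⊤) (i : ι)
    {F F' : H i} {E : Set (H i)} {N N₀ : ℕ} (P : Pack (H i) F F' E N N₀) {ε : ℝ} (hε : 0 < ε) :
    ∃ V₀ : ℕ, ∀ V ≥ V₀, ∀ n : ℕ, ∀ S_H : Set (H i), Mult F S_H N₀ → Mult F' S_H N₀ →
      ∀ S : Set (∀ i, H i), (∀ g ∈ S, g i ∈ S_H ∧ ∃ l : List (∀ i, H i), l.length ≤ n ∧
        (∀ s ∈ l, s ∈ X ∨ s⁻¹ ∈ X) ∧ l.prod = g ∧ V < (visited (Pi.evalMonoidHom H i) l).ncard) →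
      (S.ncard : ℝ) ≤ ε * (ball X n).ncard := by
  classical
  obtain ⟨w₁, hw₁⟩ := exists_mem_ball hgen (Pi.mulSingle i F)
  obtain ⟨w₂, hw₂⟩ := exists_mem_ball hgen (Pi.mulSingle i F')
  set w := max w₁ w₂ with hw
  have hF : Pi.mulSingle i F ∈ ball X w := ball_mono (le_max_left _ _) hw₁
  have hF' : Pi.mulSingle i F' ∈ ball X w := ball_mono (le_max_right _ _) hw₂
  obtain ⟨m, hm⟩ := exists_nat_ge (2 * N₀ * ((ball X w).ncard : ℝ) / ε)
  have hb : (0 : ℝ) < ((ball X w).ncard : ℝ) := by exact_mod_cast ncard_ball_pos hX w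
  have hN0 : (0 : ℝ) < N₀ := by exact_mod_cast P.pos
  have hm0 : (0 : ℝ) < m := lt_of_lt_of_le (by positivity) hm
  refine ⟨E.ncard * (m * m), fun V hV n S_H h1 h2 S hS => ?_⟩
  -- split
  set S1 : Set (∀ i, H i) := {g | g ∈ S ∧ ∃ l : List (∀ i, H i), l.length ≤ n ∧
    (∀ s ∈ l, s ∈ X ∨ s⁻¹ ∈ X) ∧ l.prod = g ∧ m ≤ (conjs (Pi.mulSingle i F) l).ncard} with hS1
  set S2 : Set (∀ i, H i) := {g | g ∈ S ∧ ∃ l : List (∀ i, H i), l.length ≤ n ∧
    (∀ s ∈ l, s ∈ X ∨ s⁻¹ ∈ X) ∧ l.prod = g ∧ m ≤ (conjs (Pi.mulSingle i F') l).ncard} with hS2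
  have hsub : S ⊆ S1 ∪ S2 := by
    intro g hg
    obtain ⟨_, l, hl, hl', hlg, hV'⟩ := hS g hg
    have hb4 := R4b (Pi.evalMonoidHom H i) F F' E P.fin P.comm (Pi.mulSingle i F)
      (Pi.mulSingle i F') (fun p q => conj_single_iff i F p q)
      (fun p q => conj_single_iff i F' p q) l
    by_cases hc : m ≤ (conjs (Pi.mulSingle i F) l).ncard
    · exact Or.inl ⟨hg, l, hl, hl', hlg, hc⟩
    · by_cases hc' : m ≤ (conjs (Pi.mulSingle i F') l).ncard
      · exact Or.inr ⟨hg, l, hl, hl', hlg, hc'⟩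
      · exfalso
        have h5 : (conjs (Pi.mulSingle i F) l).ncard * (conjs (Pi.mulSingle i F') l).ncard ≤
            m * m := Nat.mul_le_mul (by omega) (by omega)
        have h6 : (visited (Pi.evalMonoidHom H i) l).ncard ≤ E.ncard * (m * m) :=
          hb4.trans (Nat.mul_le_mul_left _ h5)
        omega
  have hSfin : S.Finite := (ball_finite hX n).subset fun g hg => by
    obtain ⟨_, l, hl, hl', hlg, _⟩ := hS g hg
    exact ⟨l, hl, hl', hlg⟩
  have hf1 : S1.Finite := hSfin.subset fun g hg => hg.1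
  have hf2 : S2.Finite := hSfin.subset fun g hg => hg.1
  have c1 := insert_mult hX hF n m N₀ (S := S1) (fun g hg => hg.2)
    (mult_lift i h1 S1 fun g hg => (hS g hg.1).1)
  have c2 := insert_mult hX hF' n m N₀ (S := S2) (fun g hg => hg.2)
    (mult_lift i h2 S2 fun g hg => (hS g hg.1).1)
  have c3 : S.ncard ≤ S1.ncard + S2.ncard :=
    (Set.ncard_le_ncard hsub (hf1.union hf2)).trans (Set.ncard_union_le _ _)
  have c4 := ncard_ball_add_le hX n w
  have c5 : m * S.ncard ≤ 2 * (N₀ * ((ball X n).ncard * (ball X w).ncard)) := by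
    calc m * S.ncard ≤ m * (S1.ncard + S2.ncard) := Nat.mul_le_mul_left _ c3
      _ = m * S1.ncard + m * S2.ncard := by ring
      _ ≤ N₀ * (ball X (n + w)).ncard + N₀ * (ball X (n + w)).ncard := Nat.add_le_add c1 c2
      _ ≤ N₀ * ((ball X n).ncard * (ball X w).ncard) +
          N₀ * ((ball X n).ncard * (ball X w).ncard) :=
        Nat.add_le_add (Nat.mul_le_mul_left _ c4) (Nat.mul_le_mul_left _ c4)
      _ = _ := by ring
  have c6 : (m : ℝ) * S.ncard ≤ 2 * (N₀ * (((ball X n).ncard : ℝ) * (ball X w).ncard)) := by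
    exact_mod_cast c5
  rw [div_le_iff₀ hε] at hm
  refine le_of_mul_le_mul_left ?_ hm0
  have hbn : (0 : ℝ) ≤ ((ball X n).ncard : ℝ) := Nat.cast_nonneg _
  calc (m : ℝ) * S.ncard ≤ (2 * N₀ * ((ball X w).ncard : ℝ)) * (ball X n).ncard := by
        linarith
    _ ≤ (m * ε) * (ball X n).ncard := mul_le_mul_of_nonneg_right hm hbn
    _ = m * (ε * (ball X n).ncard) := by ring

end Pool.Agent.AcylTdc3
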