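import Pool.Agent.AcylTdc3.Asm

/-! Combinatorial assembly for direct products, last part. -/

open Filter Topology Set Pool.Agent.TwistedRatio Pool.Agent.AcylTdc

namespace Pool.Agent.AcylTdc3

variable {ι : Type*} [Fintype ι] [DecidableEq ι] {H : ι → Type*} [∀ i, Group (H i)]

theorem cnt_expand {X : Set (∀ i, H i)} (hX : X.Finite) (hgen : Subgroup.closure X = ⊤) {i : ι}
    (hexp : ∃ U : Set (H i), U.Finite ∧ ∀ A : Set (∀ i, H i), A.Finite →
      3 * A.ncard ≤ ((fun p : H i × (∀ i, H i) => MonoidHom.mulSingle H i p.1 * p.2) ''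
        (U ×ˢ A)).ncard) :
    ∃ D : ℕ, ∀ I : Finset ι, i ∈ I → ∀ (u : ∀ i, H i) (s : ℕ),
      3 * cnt X I u s ≤ cnt X I u (s + D) := by
  classical
  obtain ⟨U, hU, hexp⟩ := hexp
  have hmem : ∀ x : H i, ∃ n, MonoidHom.mulSingle H i x ∈ ball X n := fun x =>
    exists_mem_ball hgen _
  choose ℓ hℓ using hmem
  obtain ⟨D, hD⟩ := (hU.image ℓ).bddAbove
  refine ⟨D, fun I hi u s => ?_⟩
  set A : Set (∀ i, H i) := {g | g ∈ ball X s ∧ ∀ i, i ∉ I → g i = u i} with hA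
  have hAfin : A.Finite := (ball_finite hX s).subset fun g hg => hg.1
  refine (hexp A hAfin).trans ?_
  refine Set.ncard_le_ncard ?_ ((ball_finite hX (s + D)).subset fun g hg => hg.1)
  rintro _ ⟨⟨x, g⟩, ⟨hx, hg⟩, rfl⟩
  refine ⟨?_, ?_⟩
  · have h1 : MonoidHom.mulSingle H i x ∈ ball X D :=
      ball_mono (hD ⟨x, hx, rfl⟩) (hℓ x)
    have := ball_mul h1 hg.1
    rw [add_comm]
    exact this
  · intro j hj
    have hne : j ≠ i := fun h => hj (h ▸ hi)
    simp only [Pi.mul_apply, MonoidHom.mulSingle_apply, Pi.mulSingle_eq_of_ne hne, one_mul]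
    exact hg.2 j hj

theorem cnt_empty_le (X : Set (∀ i, H i)) (u : ∀ i, H i) (s : ℕ) : cnt X ∅ u s ≤ 1 := by
  refine (Set.ncard_le_ncard (t := {u}) ?_ (Set.finite_singleton u)).trans
    (Set.ncard_singleton u).le
  rintro g ⟨_, hg⟩
  exact funext fun i => hg i (by simp)

set_option maxHeartbeats 400000 in
theorem tendsto_of_packs {X : Set (∀ i, H i)} (hX : X.Finite) (hgen : Subgroup.closure X = ⊤)
    (φ : (∀ i, H i) →* (∀ i, H i))
    (hPack : ∀ i, ∃ (F F' : H i) (E : Set (H i)) (N N₀ : ℕ), Pack (H i) F F' E N N₀)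
    (hexp : ∀ i, ∃ U : Set (H i), U.Finite ∧ ∀ A : Set (∀ i, H i), A.Finite →
      3 * A.ncard ≤ ((fun p : H i × (∀ i, H i) => MonoidHom.mulSingle H i p.1 * p.2) ''
        (U ×ˢ A)).ncard)
    (hinf : Tendsto (fun n => (ball X n).ncard) atTop atTop) :
    Tendsto (fun n : ℕ =>
      (({p : (∀ i, H i) × (∀ i, H i) | p.1 ∈ ball X n ∧ p.2 ∈ ball X n ∧
        p.1 * p.2 = p.2 * φ p.1}).ncard : ℝ) / ((ball X n).ncard : ℝ) ^ 2) atTop (𝓝 0) := by
  classical
  rw [Metric.tendsto_atTop]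
  intro η hη
  choose F F' E N N₀ P using hPack
  set c₀ : ℕ := (Finset.univ : Finset (Finset ι × Finset ι)).card with hc₀
  have hc₀pos : 0 < c₀ := Finset.card_pos.2 ⟨(∅, ∅), Finset.mem_univ _⟩
  have hc₀R : (0 : ℝ) < c₀ := by exact_mod_cast hc₀pos
  set η₂ : ℝ := η / (2 * c₀) with hη₂
  have hη₂pos : 0 < η₂ := by positivity
  -- the epsilons
  obtain ⟨ε, hε⟩ : ∃ ε : ι → ℝ, ∀ i, 0 < ε i ∧
      ε i * (1 + 2 * ((N i : ℝ) + 1) ^ 2) = η₂ ^ (N i + 1) := by
    refine ⟨fun i => η₂ ^ (N i + 1) / (1 + 2 * ((N i : ℝ) + 1) ^ 2), fun i => ?_⟩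
    have h0 : (0 : ℝ) < 1 + 2 * ((N i : ℝ) + 1) ^ 2 := by positivity
    exact ⟨div_pos (pow_pos hη₂pos _) h0, div_mul_cancel₀ _ h0.ne'⟩
  have hεpos : ∀ i, 0 < ε i := fun i => (hε i).1
  have hspread := fun i => spread_bound hX hgen i (P i) (hεpos i)
  choose V₀ hV₀ using hspread
  obtain ⟨V, hVle⟩ : ∃ V : ℕ, ∀ i, V₀ i ≤ V :=
    ⟨Finset.univ.sup V₀, fun i => Finset.le_sup (f := V₀) (Finset.mem_univ i)⟩
  obtain ⟨Bf, hBf⟩ : ∃ Bf : ∀ i, Finset (H i), ∀ i,
      ball (Pi.evalMonoidHom H i '' X) V ⊆ ↑(Bf i) :=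
    ⟨fun i => (ball_finite (hX.image (Pi.evalMonoidHom H i)) V).toFinset, fun i => by simp⟩
  obtain ⟨C, hC⟩ : ∃ C : ℕ, C = (∏ i, ((Bf i).card + 1)) ^ 2 := ⟨_, rfl⟩
  have hCpos : 0 < C := by
    rw [hC]
    exact pow_pos (Finset.prod_pos fun i _ => Nat.succ_pos _) 2
  have hCR : (0 : ℝ) < C := by exact_mod_cast hCpos
  have hηC : 0 < η₂ / C := by positivity
  have hinfR : Tendsto (fun n => ((ball X n).ncard : ℝ)) atTop atTop :=
    tendsto_natCast_atTop_atTop.comp hinf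
  -- eventual properties
  have e1 : ∀ᶠ n in atTop, ∀ i, 1 ≤ ε i * ((ball X n).ncard : ℝ) := by
    rw [Filter.eventually_all]
    intro i
    filter_upwards [hinfR.eventually_ge_atTop (1 / ε i)] with n hn
    rw [div_le_iff₀ (hεpos i)] at hn
    linarith
  have e2 : ∀ᶠ n in atTop, (C : ℝ) / η₂ ≤ ((ball X n).ncard : ℝ) :=
    hinfR.eventually_ge_atTop _
  have e3 : ∀ᶠ n in atTop, ∀ q : Finset ι × Finset ι, Disjoint q.1 q.2 → q.1.Nonempty →
      (∀ s ≤ n, ∃ u u' : ∀ i, H i,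
        η₂ / C * ((ball X n).ncard : ℝ) ≤ (cnt X q.1 u s : ℝ) * (cnt X q.1 u' (n - s) : ℝ)) →
      (∀ s ≤ n, ∃ v v' : ∀ i, H i,
        η₂ / C * ((ball X n).ncard : ℝ) ≤ (cnt X q.2 v s : ℝ) * (cnt X q.2 v' (n - s) : ℝ)) →
      False := by
    rw [Filter.eventually_all]
    rintro ⟨I, J⟩
    by_cases hd : Disjoint I J ∧ I.Nonempty
    · obtain ⟨hd, i, hi⟩ := hd
      obtain ⟨D, hD⟩ := cnt_expand hX hgen (hexp i)
      obtain ⟨n₀, hn₀⟩ := R6 hX I J hd D (fun u s => hD I hi u s) hηC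
      filter_upwards [eventually_ge_atTop n₀] with n hn _ _
      exact hn₀ n hn
    · filter_upwards with n h1 h2
      exact absurd ⟨h1, h2⟩ hd
  obtain ⟨n₀, hn₀⟩ := eventually_atTop.1 (e1.and (e2.and e3))
  refine ⟨n₀, fun n hn => ?_⟩
  obtain ⟨f1, f2, f3⟩ := hn₀ n hn
  obtain ⟨w, hw⟩ := exists_word X n
  set b : ℝ := ((ball X n).ncard : ℝ) with hb
  have hb0 : 0 < b := by rw [hb]; exact_mod_cast ncard_ball_pos hX n
  set T : (∀ i, H i) → Finset ι := fun g =>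
    Finset.univ.filter fun i => V < (visited (Pi.evalMonoidHom H i) (w g)).ncard with hT
  have hTmem : ∀ g i, i ∈ T g ↔ V < (visited (Pi.evalMonoidHom H i) (w g)).ncard := fun g i => by
    simp [hT]
  set Pr : Finset ι → Finset ι → Set ((∀ i, H i) × (∀ i, H i)) := fun I J =>
    {p | p.1 ∈ ball X n ∧ p.2 ∈ ball X n ∧ p.1 ∈ {g | T g = I} ∧ p.2 ∈ {g | T g = J} ∧
      p.1 * p.2 = p.2 * φ p.1} with hPr
  have hball2 : ((ball X n) ×ˢ (ball X n)).Finite := (ball_finite hX n).prod (ball_finite hX n)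
  have hPrfin : ∀ I J, (Pr I J).Finite := fun I J => hball2.subset fun p hp => ⟨hp.1, hp.2.1⟩
  -- the part of the ball of given type
  set W : Finset ι → Set (∀ i, H i) := fun I => {g | g ∈ ball X n ∧ T g = I} with hW
  have hWfin : ∀ I, (W I).Finite := fun I => (ball_finite hX n).subset fun g hg => hg.1
  have hWcut : ∀ I : Finset ι, ∀ s ≤ n, ∃ u u' : ∀ i, H i,
      (W I).ncard ≤ C * (cnt X I u s * cnt X I u' (n - s)) := by
    intro I s hs
    rw [hC]
    refine R7 hX I Bf n s hs (W I) ?_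
    rintro g ⟨hg, hgT⟩
    refine ⟨w g, (hw g hg).1, (hw g hg).2.1, (hw g hg).2.2, fun i hi => ?_⟩
    have hle : (visited (Pi.evalMonoidHom H i) (w g)).ncard ≤ V := by
      by_contra hcon
      exact hi (hgT ▸ (hTmem g i).2 (by omega))
    exact (R4a (X := X) (Pi.evalMonoidHom H i) (hw g hg).2.1 hle).trans (hBf i)
  have hPrle : ∀ I J, (Pr I J).ncard ≤ (W I).ncard * (W J).ncard := by
    intro I J
    rw [← Set.ncard_prod]
    refine Set.ncard_le_ncard ?_ ((hWfin I).prod (hWfin J))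
    rintro p ⟨h1, h2, h3, h4, _⟩
    exact ⟨⟨h1, h3⟩, ⟨h2, h4⟩⟩
  have hWle : ∀ I, (W I).ncard ≤ (ball X n).ncard := fun I =>
    Set.ncard_le_ncard (fun g hg => hg.1) (ball_finite hX n)
  have hWempty : ((W ∅).ncard : ℝ) ≤ η₂ * b := by
    obtain ⟨u, u', h⟩ := hWcut ∅ 0 (Nat.zero_le _)
    have h1 : (W ∅).ncard ≤ C := by
      refine h.trans ?_
      have h2 := Nat.mul_le_mul (cnt_empty_le X u 0) (cnt_empty_le X u' (n - 0))
      calc C * (cnt X ∅ u 0 * cnt X ∅ u' (n - 0)) ≤ C * (1 * 1) := Nat.mul_le_mul_left _ h2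
        _ = C := by ring
    have h2 : ((W ∅).ncard : ℝ) ≤ C := by exact_mod_cast h1
    rw [div_le_iff₀ hη₂pos] at f2
    linarith
  have key : ∀ I J : Finset ι, ((Pr I J).ncard : ℝ) ≤ η₂ * b ^ 2 := by
    intro I J
    by_cases hIJ : ∃ i, i ∈ I ∧ i ∈ J
    · obtain ⟨i, hiI, hiJ⟩ := hIJ
      have h1 := pair_common hX φ i (P i) V n (hεpos i) (f1 i) (hV₀ i V (hVle i) n) w hw
        {g | T g = I} {g | T g = J}
        (fun g hg => (hTmem g i).1 (by rw [show T g = I from hg]; exact hiI))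
        (fun g hg => (hTmem g i).1 (by rw [show T g = J from hg]; exact hiJ))
      rw [(hε i).2] at h1
      have h3 : (((Pr I J).ncard : ℝ) / b ^ 2) ^ (N i + 1) ≤ η₂ ^ (N i + 1) := h1
      have h4 := (pow_le_pow_iff_left₀ (by positivity) hη₂pos.le (by omega)).1 h3
      rwa [div_le_iff₀ (by positivity)] at h4
    · have hd : Disjoint I J := by
        rw [Finset.disjoint_left]
        intro i hi hj
        exact hIJ ⟨i, hi, hj⟩
      have hle : ((Pr I J).ncard : ℝ) ≤ ((W I).ncard : ℝ) * ((W J).ncard : ℝ) := by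
        exact_mod_cast hPrle I J
      have hWleR : ∀ I, ((W I).ncard : ℝ) ≤ b := fun I => by
        rw [hb]
        exact_mod_cast hWle I
      rcases I.eq_empty_or_nonempty with hI | hI
      · subst hI
        calc ((Pr ∅ J).ncard : ℝ) ≤ ((W ∅).ncard : ℝ) * ((W J).ncard : ℝ) := hle
          _ ≤ (η₂ * b) * b := mul_le_mul hWempty (hWleR J) (Nat.cast_nonneg _) (by positivity)
          _ = η₂ * b ^ 2 := by ring
      · by_contra hcon
        push Not at hcon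
        have hbig : ∀ K : Finset ι, (η₂ * b ≤ ((W K).ncard : ℝ)) → ∀ s ≤ n, ∃ u u' : ∀ i, H i,
            η₂ / C * b ≤ (cnt X K u s : ℝ) * (cnt X K u' (n - s) : ℝ) := by
          intro K hK s hs
          obtain ⟨u, u', h⟩ := hWcut K s hs
          refine ⟨u, u', ?_⟩
          have h' : ((W K).ncard : ℝ) ≤ C * ((cnt X K u s : ℝ) * (cnt X K u' (n - s) : ℝ)) := by
            exact_mod_cast h
          rw [div_mul_eq_mul_div, div_le_iff₀ hCR]
          linarith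
        have hWI : η₂ * b ≤ ((W I).ncard : ℝ) := by
          by_contra hc
          push Not at hc
          have : ((W I).ncard : ℝ) * ((W J).ncard : ℝ) ≤ (η₂ * b) * b :=
            mul_le_mul hc.le (hWleR J) (Nat.cast_nonneg _) (by positivity)
          have h5 : (η₂ * b) * b = η₂ * b ^ 2 := by ring
          linarith
        have hWJ : η₂ * b ≤ ((W J).ncard : ℝ) := by
          by_contra hc
          push Not at hc
          have : ((W I).ncard : ℝ) * ((W J).ncard : ℝ) ≤ b * (η₂ * b) :=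
            mul_le_mul (hWleR I) hc.le (Nat.cast_nonneg _) hb0.le
          have h5 : b * (η₂ * b) = η₂ * b ^ 2 := by ring
          linarith
        exact f3 (I, J) hd hI (hbig I hWI) (hbig J hWJ)
  -- sum over the pairs
  have htot : ({p : (∀ i, H i) × (∀ i, H i) | p.1 ∈ ball X n ∧ p.2 ∈ ball X n ∧
      p.1 * p.2 = p.2 * φ p.1}).ncard ≤ ∑ q : Finset ι × Finset ι, (Pr q.1 q.2).ncard := by
    have hsub : {p : (∀ i, H i) × (∀ i, H i) | p.1 ∈ ball X n ∧ p.2 ∈ ball X n ∧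
        p.1 * p.2 = p.2 * φ p.1} ⊆
        ↑((Finset.univ : Finset (Finset ι × Finset ι)).biUnion fun q =>
          (hPrfin q.1 q.2).toFinset) := by
      rintro p ⟨h1, h2, h3⟩
      rw [Finset.mem_coe, Finset.mem_biUnion]
      refine ⟨(T p.1, T p.2), Finset.mem_univ _, ?_⟩
      rw [Set.Finite.mem_toFinset]
      exact ⟨h1, h2, rfl, rfl, h3⟩
    refine (Set.ncard_le_ncard hsub (Finset.finite_toSet _)).trans ?_
    rw [Set.ncard_coe_finset]
    refine Finset.card_biUnion_le.trans (Finset.sum_le_sum fun q _ => ?_)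
    rw [Set.ncard_eq_toFinset_card _ (hPrfin q.1 q.2)]
  have htotR : (({p : (∀ i, H i) × (∀ i, H i) | p.1 ∈ ball X n ∧ p.2 ∈ ball X n ∧
      p.1 * p.2 = p.2 * φ p.1}).ncard : ℝ) ≤ c₀ * (η₂ * b ^ 2) := by
    calc (({p : (∀ i, H i) × (∀ i, H i) | p.1 ∈ ball X n ∧ p.2 ∈ ball X n ∧
        p.1 * p.2 = p.2 * φ p.1}).ncard : ℝ) ≤
        ((∑ q : Finset ι × Finset ι, (Pr q.1 q.2).ncard : ℕ) : ℝ) := by exact_mod_cast htot
      _ = ∑ q : Finset ι × Finset ι, ((Pr q.1 q.2).ncard : ℝ) := by push_cast; rfl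
      _ ≤ ∑ _q : Finset ι × Finset ι, η₂ * b ^ 2 := Finset.sum_le_sum fun q _ => key q.1 q.2
      _ = c₀ * (η₂ * b ^ 2) := by rw [Finset.sum_const, nsmul_eq_mul]
  rw [Real.dist_eq, sub_zero, abs_of_nonneg (by positivity), div_lt_iff₀ (by positivity)]
  have h6 : (c₀ : ℝ) * (η₂ * b ^ 2) = η / 2 * b ^ 2 := by
    rw [hη₂]
    field_simp
  have h7 : 0 < b ^ 2 := by positivity
  nlinarith

end Pool.Agent.AcylTdc3
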