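import Pool.Agent.AcylTdc3.Comb

/-! The data for an acylindrically hyperbolic factor. -/

open Filter Topology Set Pool.Agent.TwistedRatio Pool.Agent.AcylTdc

namespace Pool.Agent.AcylTdc3

section
variable {H Y : Type*} [Group H] [MetricSpace Y] [MulAction H Y] [IsIsometricSMul H Y] {δ : ℝ}

theorem axis_pow (hδ : 0 ≤ δ) {f : H} {o : Y} {C : ℝ} (ax : Axis δ f o C) {k : ℕ} (hk : 1 ≤ k) :
    Axis δ (f ^ k) o C where
  nonneg := ax.nonneg
  turn := by
    intro i j l hij hjl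
    have e : ∀ z : ℤ, (f ^ k) ^ z = f ^ ((k : ℤ) * z) := fun z => by
      rw [← zpow_natCast, ← zpow_mul]
    rw [e, e, e]
    exact ax.turn _ _ _ (mul_le_mul_of_nonneg_left hij (by positivity))
      (mul_le_mul_of_nonneg_left hjl (by positivity))
  long := by
    have h1 := (ax.strictMono hδ).monotone hk
    have h2 := ax.long
    simp only [pow_one] at h1
    linarith
  lower := by
    intro n
    rw [← pow_mul]
    refine le_trans ?_ (ax.lower (k * n))
    exact_mod_cast Nat.le_mul_of_pos_left n hk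

theorem move_pow (F : H) (P : Y) (n : ℕ) : dist P (F ^ n • P) ≤ n * dist P (F • P) := by
  induction n with
  | zero => simp
  | succ n ih =>
    rw [pow_succ, mul_smul]
    have h1 := dist_triangle P (F ^ n • P) (F ^ n • F • P)
    rw [dist_smul] at h1
    push_cast
    linarith

/-- every point is moved by a power of a loxodromic element far enough -/
theorem axis_move {f : H} {o : Y} {C : ℝ} (ax : Axis δ f o C) (M : ℕ) (P : Y) :
    (M : ℝ) ≤ dist P (f ^ M • P) := by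
  by_contra hcon
  push Not at hcon
  set x := dist P (f ^ M • P) with hx
  have hpos : 0 < (M : ℝ) - x := by linarith
  obtain ⟨n, hn⟩ := exists_nat_gt (2 * dist o P / ((M : ℝ) - x))
  rw [div_lt_iff₀ hpos] at hn
  have h1 := move_pow (f ^ M) P n
  rw [← pow_mul] at h1
  have h2 := ax.lower (M * n)
  have h3 := dist_triangle o P (f ^ (M * n) • P)
  have h4 := dist_triangle o (f ^ (M * n) • P) (f ^ (M * n) • o)
  rw [dist_smul, dist_comm P o] at h4
  push_cast at h2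
  nlinarith

/-- the multiplicity for one of the two loxodromic elements -/
theorem mult_of (h : Hyp Y δ) (hδ : 0 ≤ δ) (hgeo : Geod Y) (hac : Acyl H Y) {R₁ : ℝ} {N : ℕ}
    (hRN : ∀ x y : Y, R₁ ≤ dist x y →
      {g : H | dist x (g • x) ≤ 4 * δ + 2 ∧ dist y (g • y) ≤ 4 * δ + 2}.encard ≤ N) (o : Y)
    {F : H} (hF : ∀ P : Y, 1000 * (δ + 1) < dist P (F • P))
    (hsep : ∀ (p q : H) (Q : Y), dist ((p * F * p⁻¹) • Q) ((q * F * q⁻¹) • Q) ≤
      max (1000 * (δ + 1)) (2 * R₁) → p * F * p⁻¹ = q * F * q⁻¹) :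
    ∃ N₀ : ℕ, ∀ S₁ : Finset H, N + 1 ≤ S₁.card → ∀ y₀ : H,
      Mult F {y | ∀ x ∈ S₁, (y * y₀⁻¹) * x = x * (y * y₀⁻¹)} N₀ := by
  classical
  obtain ⟨N₁, hN₁⟩ := R3 h hδ hgeo (o := o) hF fun p q Q hpq =>
    hsep p q Q (hpq.trans (le_max_left _ _))
  refine ⟨N₁ + 1, fun S₁ hS₁ y₀ g A hA => ?_⟩
  set D : Subgroup H := Subgroup.closure (S₁ : Set H) with hD
  have hcommD : ∀ y : H, (∀ x ∈ S₁, (y * y₀⁻¹) * x = x * (y * y₀⁻¹)) →
      ∀ z ∈ D, (y * y₀⁻¹) * z = z * (y * y₀⁻¹) := by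
    intro y hy z hz
    have h1 : D ≤ Subgroup.centralizer {y * y₀⁻¹} := by
      rw [hD, Subgroup.closure_le]
      intro a ha
      rw [SetLike.mem_coe, Subgroup.mem_centralizer_singleton_iff]
      exact (hy a ha).symm
    have h2 := h1 hz
    rw [Subgroup.mem_centralizer_singleton_iff] at h2
    exact h2.symm
  by_cases hunb : ∀ R : ℝ, ∃ z ∈ D, R < dist o (z • o)
  · -- a loxodromic element of `D`
    haveI : IsIsometricSMul D Y := ⟨fun z => isometry_smul Y (z : H)⟩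
    have hacD : Acyl D Y := by
      intro ε
      obtain ⟨R, M, hM⟩ := hac ε
      refine ⟨R, M, fun x y hxy => le_trans ?_ (hM x y hxy)⟩
      refine Set.encard_le_encard_of_injOn (f := fun z : D => (z : H)) ?_
        Subtype.val_injective.injOn
      intro z hz
      exact hz
    have hunbD : UnbddOrbits D Y := ⟨o, fun R => by
      obtain ⟨z, hz, hz'⟩ := hunb R
      exact ⟨⟨z, hz⟩, hz'⟩⟩
    set XD : Set D := {z | (z : H) ∈ S₁} with hXD
    have hXDfin : XD.Finite := Set.Finite.preimage Subtype.val_injective.injOn S₁.finite_toSet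
    have hXDgen : Subgroup.closure XD = ⊤ := Subgroup.closure_closure_coe_preimage
    obtain ⟨d, hd⟩ := exists_lox h hδ hgeo hacD hXDfin hXDgen hunbD
    have hd' : Lox Y (d : H) := by
      obtain ⟨y, ε, hε, hy⟩ := hd
      exact ⟨y, ε, hε, fun n => hy n⟩
    have h1 := hN₁ (d : H) hd' (g * y₀⁻¹) A (by
      intro a ha
      refine ⟨(hA a ha).1, ?_⟩
      have h2 := hcommD _ (hA a ha).2 d d.2
      rw [mul_assoc] at h2
      rw [← mul_assoc] at h2 ⊢
      exact h2)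
    omega
  · -- bounded case
    push Not at hunb
    obtain ⟨B, hB⟩ := hunb
    obtain ⟨p, hp⟩ := quasi_center h hδ hgeo D ⟨o, B, hB⟩
    have hclose : ∀ y : H, (∀ x ∈ S₁, (y * y₀⁻¹) * x = x * (y * y₀⁻¹)) →
        dist ((y * y₀⁻¹) • p) p ≤ R₁ := by
      intro y hy
      by_contra hcon
      push Not at hcon
      have h1 : R₁ ≤ dist p ((y * y₀⁻¹) • p) := by
        rw [dist_comm]
        exact hcon.le
      have h2 := hRN p ((y * y₀⁻¹) • p) h1
      have h3 : (S₁ : Set H) ⊆ {g : H | dist p (g • p) ≤ 4 * δ + 2 ∧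
          dist ((y * y₀⁻¹) • p) (g • ((y * y₀⁻¹) • p)) ≤ 4 * δ + 2} := by
        intro a ha
        have haD : a ∈ D := Subgroup.subset_closure ha
        refine ⟨hp a haD, ?_⟩
        have e1 : a • ((y * y₀⁻¹) • p) = (y * y₀⁻¹) • (a • p) := by
          rw [smul_smul, smul_smul, hy a ha]
        rw [e1, dist_smul]
        exact hp a haD
      have h4 : ((S₁.card : ℕ) : ℕ∞) ≤ (N : ℕ∞) := by
        rw [← Set.encard_coe_eq_coe_finsetCard]
        exact (Set.encard_le_encard h3).trans h2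
      have h5 : S₁.card ≤ N := by exact_mod_cast h4
      omega
    have h6 : A.card ≤ 1 := by
      refine Finset.card_le_one.2 ?_
      intro a ha a' ha'
      obtain ⟨⟨q, hq⟩, ha2⟩ := hA a ha
      obtain ⟨⟨q', hq'⟩, ha2'⟩ := hA a' ha'
      have c1 := hclose _ ha2
      have c2 := hclose _ ha2'
      have d1 : dist (a • p) ((g * y₀⁻¹) • p) ≤ R₁ := by
        have : (a⁻¹ * g * y₀⁻¹) • p = a⁻¹ • ((g * y₀⁻¹) • p) := by
          rw [smul_smul, mul_assoc]
        rw [this] at c1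
        have e := dist_smul a (a⁻¹ • ((g * y₀⁻¹) • p)) p
        rw [smul_inv_smul] at e
        rw [dist_comm, e]
        exact c1
      have d2 : dist (a' • p) ((g * y₀⁻¹) • p) ≤ R₁ := by
        have : (a'⁻¹ * g * y₀⁻¹) • p = a'⁻¹ • ((g * y₀⁻¹) • p) := by
          rw [smul_smul, mul_assoc]
        rw [this] at c2
        have e := dist_smul a' (a'⁻¹ • ((g * y₀⁻¹) • p)) p
        rw [smul_inv_smul] at e
        rw [dist_comm, e]
        exact c2
      have d3 := dist_triangle (a • p) ((g * y₀⁻¹) • p) (a' • p)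
      rw [dist_comm ((g * y₀⁻¹) • p)] at d3
      rw [hq, hq'] at d3 ⊢
      rw [hq] at d1
      rw [hq'] at d2
      refine hsep q q' p (le_trans ?_ (le_max_right _ _))
      linarith
    omega

theorem pack_of (h : Hyp Y δ) (hδ : 0 ≤ δ) (hgeo : Geod Y) (hac : Acyl H Y) {a b : H} {o : Y}
    {Ca Cb B : ℝ} (ha : Axis δ a o Ca) (hb : Axis δ b o Cb)
    (hab : ∀ m n : ℤ, gp o (a ^ m • o) (b ^ n • o) ≤ B) :
    ∃ (F F' : H) (E : Set H) (N N₀ : ℕ), Pack H F F' E N N₀ := by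
  obtain ⟨R₁, N, hRN⟩ := hac (4 * δ + 2)
  obtain ⟨M₀, hM₀⟩ := exists_nat_gt (1000 * (δ + 1))
  have hM₀pos : 1 ≤ M₀ := by
    have : (0 : ℝ) < M₀ := lt_trans (by positivity) hM₀
    exact_mod_cast this
  have ha' := axis_pow hδ ha hM₀pos
  have hb' := axis_pow hδ hb hM₀pos
  obtain ⟨Ma, hMa1, hMa⟩ := separation h hδ hac ha' (max (1000 * (δ + 1)) (2 * R₁))
  obtain ⟨Mb, hMb1, hMb⟩ := separation h hδ hac hb' (max (1000 * (δ + 1)) (2 * R₁))
  have hFa : ∀ P : Y, 1000 * (δ + 1) < dist P ((a ^ M₀) ^ Ma • P) := by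
    intro P
    rw [← pow_mul]
    refine hM₀.trans_le (le_trans ?_ (axis_move ha (M₀ * Ma) P))
    exact_mod_cast Nat.le_mul_of_pos_right M₀ hMa1
  have hFb : ∀ P : Y, 1000 * (δ + 1) < dist P ((b ^ M₀) ^ Mb • P) := by
    intro P
    rw [← pow_mul]
    refine hM₀.trans_le (le_trans ?_ (axis_move hb (M₀ * Mb) P))
    exact_mod_cast Nat.le_mul_of_pos_right M₀ hMb1
  obtain ⟨N₁, hN₁⟩ := mult_of h hδ hgeo hac hRN o hFa fun p q Q hpq => hMa p q Q hpq
  obtain ⟨N₂, hN₂⟩ := mult_of h hδ hgeo hac hRN o hFb fun p q Q hpq => hMb p q Q hpq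
  have hM : 1 ≤ M₀ * Ma * Mb := Nat.mul_pos (Nat.mul_pos hM₀pos hMa1) hMb1
  have hfin := R2_common_finite h hδ hac ha hb hab hM
  refine ⟨(a ^ M₀) ^ Ma, (b ^ M₀) ^ Mb, _, N, N₁ + N₂ + 1, ⟨hfin, ?_, by omega, ?_⟩⟩
  · intro c h1 h2
    constructor
    · have e : a ^ (M₀ * Ma * Mb) = ((a ^ M₀) ^ Ma) ^ Mb := by rw [pow_mul, pow_mul]
      rw [e]
      exact (Commute.pow_right (show Commute c ((a ^ M₀) ^ Ma) from h1) Mb).eq
    · have e : b ^ (M₀ * Ma * Mb) = ((b ^ M₀) ^ Mb) ^ Ma := by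
        rw [← pow_mul, ← pow_mul]
        congr 1
        ring
      rw [e]
      exact (Commute.pow_right (show Commute c ((b ^ M₀) ^ Mb) from h2) Ma).eq
  · intro S₁ hS₁ y₀
    exact ⟨(hN₁ S₁ hS₁ y₀).mono subset_rfl (by omega), (hN₂ S₁ hS₁ y₀).mono subset_rfl (by omega)⟩

end

end Pool.Agent.AcylTdc3
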