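import Pool.Agent.AcylTdc3.Fin
import Pool.Agent.AcylTdc3.PackOf

/-! Direct products of acylindrically hyperbolic groups: the degree of twisted commutativity. -/

open Filter Topology Set Pool.Agent.TwistedRatio Pool.Agent.AcylTdc

namespace Pool.Agent.AcylTdc3

section
variable {H Y : Type*} [Group H] [MetricSpace Y] [MulAction H Y] [IsIsometricSMul H Y] {δ : ℝ}

theorem exists_pair (h : Hyp Y δ) (hδ : 0 ≤ δ) (hgeo : Geod Y) (hac : Acyl H Y)
    (hunb : UnbddOrbits H Y) (hnvc : ¬ VirtCyclic H) {X : Set H} (hX : X.Finite)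
    (hgen : Subgroup.closure X = ⊤) :
    ∃ (a b : H) (o : Y) (Ca Cb B : ℝ), Axis δ a o Ca ∧ Axis δ b o Cb ∧
      ∀ m n : ℤ, gp o (a ^ m • o) (b ^ n • o) ≤ B := by
  obtain ⟨o, _⟩ := id hunb
  obtain ⟨f, hf⟩ := exists_lox h hδ hgeo hac hX hgen hunb
  obtain ⟨m, hm, C, ax⟩ := hf.exists_axis h hδ o
  by_cases hc : ∀ g : H, ∀ B : ℝ, ∃ i j : ℤ,
      B < gp o ((f ^ m) ^ i • o) ((g * f ^ m * g⁻¹) ^ j • o)
  · exact absurd (virtCyclic_of_commensurate h hδ hac ax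
      fun g => commensurate_of_unbounded h hδ hac ax g (hc g)) hnvc
  · push Not at hc
    obtain ⟨g, B, hB⟩ := hc
    obtain ⟨k, hk, Cb, hb⟩ := (ax.lox.conj g).exists_axis h hδ o
    refine ⟨f ^ m, (g * f ^ m * g⁻¹) ^ k, o, C, Cb, B, ax, hb, fun i j => ?_⟩
    rw [← zpow_natCast (g * f ^ m * g⁻¹) k, ← zpow_mul]
    exact hB _ _

end

/-- **Theorem.** The degree of twisted commutativity of a finite direct product of acylindrically
hyperbolic groups is zero. -/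
theorem tdc_pi.{u, v, w} {ι : Type w} [Finite ι] [Nonempty ι] {H : ι → Type u}
    [∀ i, Group (H i)] (hH : ∀ i, AcylHyp.{u, v} (H i)) {X : Set (∀ i, H i)} (hX : X.Finite)
    (hgen : Subgroup.closure X = ⊤) (φ : (∀ i, H i) →* (∀ i, H i)) :
    tdc X φ = 0 ∧ Tendsto (fun n : ℕ =>
      (({p : (∀ i, H i) × (∀ i, H i) | p.1 ∈ ball X n ∧ p.2 ∈ ball X n ∧
        p.1 * p.2 = p.2 * φ p.1}).ncard : ℝ) / ((ball X n).ncard : ℝ) ^ 2) atTop (𝓝 0) := by
  classical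
  haveI : Fintype ι := Fintype.ofFinite ι
  have hgen1 : ∀ i, Subgroup.closure (Pi.evalMonoidHom H i '' X) = ⊤ := fun i => by
    rw [← MonoidHom.map_closure, hgen, ← MonoidHom.range_eq_map]
    exact MonoidHom.range_eq_top.2 (Function.surjective_eval i)
  have hX1 : ∀ i, (Pi.evalMonoidHom H i '' X).Finite := fun i => hX.image _
  have hPack : ∀ i, ∃ (F F' : H i) (E : Set (H i)) (N N₀ : ℕ), Pack (H i) F F' E N N₀ := by
    intro i
    obtain ⟨hnvc, Y, i1, i2, hiso, ⟨δ, h⟩, hgeo, hac, hunb⟩ := hH i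
    obtain ⟨o', _⟩ := id hunb
    haveI : Nonempty Y := ⟨o'⟩
    have hδ := h.nonneg
    obtain ⟨a, b, o, Ca, Cb, B, ha, hb, hab⟩ :=
      exists_pair h hδ hgeo hac hunb hnvc (hX1 i) (hgen1 i)
    exact pack_of h hδ hgeo hac ha hb hab
  have hexp : ∀ i, ∃ U : Set (H i), U.Finite ∧ ∀ A : Set (∀ i, H i), A.Finite →
      3 * A.ncard ≤ ((fun p : H i × (∀ i, H i) => MonoidHom.mulSingle H i p.1 * p.2) ''
        (U ×ˢ A)).ncard := by
    intro i
    obtain ⟨hnvc, Y, i1, i2, hiso, ⟨δ, h⟩, hgeo, hac, hunb⟩ := hH i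
    obtain ⟨o', _⟩ := id hunb
    haveI : Nonempty Y := ⟨o'⟩
    have hδ := h.nonneg
    obtain ⟨a, b, o, Ca, Cb, B, ha, hb, hab⟩ :=
      exists_pair h hδ hgeo hac hunb hnvc (hX1 i) (hgen1 i)
    exact R1_expand h hδ ha hb hab (MonoidHom.mulSingle H i) (Pi.evalMonoidHom H i)
      (fun x => by simp)
  have hinf : Tendsto (fun n => (ball X n).ncard) atTop atTop := by
    obtain ⟨i⟩ := (inferInstance : Nonempty ι)
    obtain ⟨hnvc, Y, i1, i2, hiso, ⟨δ, h⟩, hgeo, hac, hunb⟩ := hH i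
    obtain ⟨o', _⟩ := id hunb
    haveI : Nonempty Y := ⟨o'⟩
    have hδ := h.nonneg
    obtain ⟨a, b, o, Ca, Cb, B, ha, hb, hab⟩ :=
      exists_pair h hδ hgeo hac hunb hnvc (hX1 i) (hgen1 i)
    obtain ⟨c, hc, hgr⟩ := exp_growth h hδ ha hb hab (hX1 i) (hgen1 i)
    refine tendsto_of_growth ⟨c, hc, fun n => (hgr n).trans ?_⟩ hX
    rw [AcylTdc2.ball_image]
    exact Set.ncard_image_le (ball_finite hX _)
  have := tendsto_of_packs hX hgen φ hPack hexp hinf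
  exact ⟨this.limsup_eq, this⟩

end Pool.Agent.AcylTdc3
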