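import Pool.Agent.AcylTdc3.Sig

/-! Insertion with multiplicity; per-factor multiplicity. -/

open Filter Topology Set Pool.Agent.TwistedRatio Pool.Agent.AcylTdc

namespace Pool.Agent.AcylTdc3

/-- every element has at most `N₀` factorizations `a s` with `a` a conjugate of `F`, `s ∈ S` -/
def Mult {G : Type*} [Group G] (F : G) (S : Set G) (N₀ : ℕ) : Prop :=
  ∀ (g : G) (A : Finset G), (∀ a ∈ A, (∃ p, a = p * F * p⁻¹) ∧ a⁻¹ * g ∈ S) → A.card ≤ N₀

theorem Mult.mono {G : Type*} [Group G] {F : G} {S T : Set G} {N₀ N₁ : ℕ} (h : Mult F T N₀)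
    (hST : S ⊆ T) (hN : N₀ ≤ N₁) : Mult F S N₁ :=
  fun g A hA => (h g A fun a ha => ⟨(hA a ha).1, hST (hA a ha).2⟩).trans hN

theorem mult_singleton {G : Type*} [Group G] (F b : G) {N₀ : ℕ} (hN : 1 ≤ N₀) :
    Mult F {b} N₀ := by
  classical
  intro g A hA
  refine le_trans (Finset.card_le_one.2 ?_) hN
  intro a ha a' ha'
  have h1 : a⁻¹ * g = b := (hA a ha).2
  have h2 : a'⁻¹ * g = b := (hA a' ha').2
  have h3 : a⁻¹ = a'⁻¹ := mul_right_cancel (h1.trans h2.symm)
  exact inv_injective h3

section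

variable {G : Type*} [Group G]

theorem insert_mult {X : Set G} (hX : X.Finite) {F : G} {w : ℕ} (hF : F ∈ ball X w) (n m N₀ : ℕ)
    {S : Set G} (hS : ∀ g ∈ S, ∃ l : List G, l.length ≤ n ∧ (∀ s ∈ l, s ∈ X ∨ s⁻¹ ∈ X) ∧
      l.prod = g ∧ m ≤ (conjs F l).ncard) (hmul : Mult F S N₀) :
    m * S.ncard ≤ N₀ * (ball X (n + w)).ncard := by
  classical
  have hSfin : S.Finite := (ball_finite hX n).subset fun g hg => by
    obtain ⟨l, hl, hl', hlg, _⟩ := hS g hg
    exact ⟨l, hl, hl', hlg⟩
  have key : ∀ g : G, ∃ C : Finset G, g ∈ S →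
      (m ≤ C.card ∧ ∀ a ∈ C, (∃ p, a = p * F * p⁻¹) ∧ a * g ∈ ball X (n + w)) := by
    intro g
    by_cases hg : g ∈ S
    · obtain ⟨l, hl, hl', hlg, hm⟩ := hS g hg
      have hcfin : (conjs F l).Finite := by
        have : conjs F l ⊆ (fun i => (l.take i).prod * F * ((l.take i).prod)⁻¹) ''
            (↑(Finset.range (l.length + 1)) : Set ℕ) := by
          rintro a ⟨i, hi, rfl⟩
          exact ⟨i, by simpa using Nat.lt_succ_of_le hi, rfl⟩
        exact (Set.Finite.image _ (Finset.finite_toSet _)).subset this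
      refine ⟨hcfin.toFinset, fun _ => ⟨?_, ?_⟩⟩
      · rw [← Set.ncard_eq_toFinset_card _ hcfin]
        exact hm
      · intro a ha
        rw [Set.Finite.mem_toFinset] at ha
        obtain ⟨i, hi, rfl⟩ := ha
        refine ⟨⟨_, rfl⟩, ?_⟩
        have e : (l.take i).prod * F * ((l.take i).prod)⁻¹ * g =
            (l.take i).prod * F * (l.drop i).prod := by
          have hsplit : (l.take i).prod * (l.drop i).prod = g := by
            rw [← List.prod_append, List.take_append_drop, hlg]
          rw [← hsplit]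
          generalize (l.take i).prod = p
          generalize (l.drop i).prod = d
          simp [mul_assoc]
        rw [e]
        have h1 : (l.take i).prod ∈ ball X i :=
          ⟨l.take i, by simp, fun s hs => hl' s (List.mem_of_mem_take hs), rfl⟩
        have h2 : (l.drop i).prod ∈ ball X (l.length - i) :=
          ⟨l.drop i, by simp, fun s hs => hl' s (List.mem_of_mem_drop hs), rfl⟩
        exact ball_mono (by omega) (ball_mul (ball_mul h1 hF) h2)
    · exact ⟨∅, fun h => absurd h hg⟩
  choose C hC using key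
  set S' := hSfin.toFinset with hS'
  have hmem : ∀ g, g ∈ S' ↔ g ∈ S := fun g => by rw [hS', Set.Finite.mem_toFinset]
  have h2 : S'.card • m ≤ ∑ g ∈ S', (C g).card :=
    Finset.card_nsmul_le_sum _ _ _ (fun g hg => (hC g ((hmem g).1 hg)).1)
  have h3 : (S'.sigma C).card ≤ N₀ * ((ball_finite hX (n + w)).toFinset).card := by
    refine Finset.card_le_mul_card_image_of_maps_to (f := fun p : (Σ _ : G, G) => p.2 * p.1)
      ?_ N₀ ?_
    · rintro ⟨g, a⟩ hp
      have hp' := Finset.mem_sigma.1 hp
      rw [Set.Finite.mem_toFinset]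
      exact ((hC g ((hmem g).1 hp'.1)).2 a hp'.2).2
    · intro b _
      have hle : ((S'.sigma C).filter (fun p => p.2 * p.1 = b)).card ≤
          (((S'.sigma C).filter (fun p => p.2 * p.1 = b)).image (fun p => p.2)).card := by
        rw [Finset.card_image_of_injOn]
        rintro ⟨g, a⟩ hp ⟨h, a'⟩ hq hpq
        have hp' := (Finset.mem_filter.1 (Finset.mem_coe.1 hp)).2
        have hq' := (Finset.mem_filter.1 (Finset.mem_coe.1 hq)).2
        simp only at hpq hp' hq'
        subst hpq
        have : g = h := mul_left_cancel (hp'.trans hq'.symm)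
        subst this
        rfl
      refine hle.trans (hmul b _ ?_)
      intro a ha
      obtain ⟨⟨g, a'⟩, hp, rfl⟩ := Finset.mem_image.1 ha
      obtain ⟨hp1, hp2⟩ := Finset.mem_filter.1 hp
      have hp' := Finset.mem_sigma.1 hp1
      have hg := (hmem g).1 hp'.1
      refine ⟨((hC g hg).2 a' hp'.2).1, ?_⟩
      simp only at hp2 ⊢
      rw [← hp2]
      simpa using hg
  rw [Finset.card_sigma] at h3
  rw [Set.ncard_eq_toFinset_card _ hSfin, Set.ncard_eq_toFinset_card _ (ball_finite hX (n + w))]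
  rw [smul_eq_mul, mul_comm] at h2
  exact h2.trans h3

end

end Pool.Agent.AcylTdc3
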