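import Pool.Agent.AcylTdc.AxisDef
import Mathlib

/-! Row R1 of the board T3: expansion by ping-pong. -/

open Filter Topology Set Pool.Agent.TwistedRatio Pool.Agent.AcylTdc

namespace Pool.Agent.AcylTdc3

section R1
variable {H Y : Type*} [Group H] [MetricSpace Y] [MulAction H Y] [IsIsometricSMul H Y] {δ : ℝ}

private theorem r1_dist_inv (x : H) (o : Y) : dist o (x⁻¹ • o) = dist o (x • o) := by
  rw [← dist_smul x o (x⁻¹ • o), smul_inv_smul, dist_comm]

private theorem r1_gp_smul (x : H) (o p q : Y) : gp (x • o) (x • p) (x • q) = gp o p q := by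
  unfold gp
  simp only [dist_smul]

/-- counting -/
private theorem r1_count {G : Type*} [Group G] [DecidableEq G] (s : Fin 4 → G) (A : Finset G)
    (Rep Att : Fin 4 → G → Prop) [∀ j, DecidablePred (Rep j)]
    (h1 : ∀ i j x, i ≠ j → Rep i x → ¬ Rep j x)
    (h2 : ∀ i j x, i ≠ j → Att i x → ¬ Att j x)
    (h3 : ∀ j x, ¬ Rep j x → Att j (s j * x)) :
    3 * A.card ≤ (Finset.univ.biUnion fun j => (A.filter fun x => ¬ Rep j x).image
      fun x => s j * x).card := by
  rw [Finset.card_biUnion]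
  · have e1 : ∀ j : Fin 4, ((A.filter fun x => ¬ Rep j x).image fun x => s j * x).card =
        (A.filter fun x => ¬ Rep j x).card := by
      intro j
      exact Finset.card_image_of_injective _ (mul_right_injective (s j))
    rw [Finset.sum_congr rfl (fun j _ => e1 j)]
    have e2 : ∑ j : Fin 4, (A.filter fun x => Rep j x).card ≤ A.card := by
      rw [← Finset.card_biUnion]
      · refine Finset.card_le_card ?_
        intro x hx
        rw [Finset.mem_biUnion] at hx
        obtain ⟨j, _, hx⟩ := hx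
        exact (Finset.mem_filter.1 hx).1
      · intro i _ j _ hij
        change Disjoint _ _
        rw [Finset.disjoint_left]
        intro x hx hx'
        exact h1 i j x hij (Finset.mem_filter.1 hx).2 (Finset.mem_filter.1 hx').2
    have e3 : ∑ j : Fin 4, (A.filter fun x => Rep j x).card +
        ∑ j : Fin 4, (A.filter fun x => ¬ Rep j x).card = 4 * A.card := by
      rw [← Finset.sum_add_distrib]
      rw [Finset.sum_congr rfl (fun j _ => Finset.card_filter_add_card_filter_not (s := A) (p := fun x => Rep j x))]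
      simp
    omega
  · intro i _ j _ hij
    change Disjoint _ _
    rw [Finset.disjoint_left]
    intro x hx hx'
    rw [Finset.mem_image] at hx hx'
    obtain ⟨y, hy, rfl⟩ := hx
    obtain ⟨z, hz, hzy⟩ := hx'
    refine h2 i j (s i * y) hij (h3 i y (Finset.mem_filter.1 hy).2) ?_
    rw [← hzy]
    exact h3 j z (Finset.mem_filter.1 hz).2

/-- R1 (ping-pong expansion). -/
theorem R1_expand (h : Hyp Y δ) (hδ : 0 ≤ δ) {a b : H} {o : Y} {Ca Cb B : ℝ}
    (ha : Axis δ a o Ca) (hb : Axis δ b o Cb)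
    (hab : ∀ m n : ℤ, gp o (a ^ m • o) (b ^ n • o) ≤ B)
    {G : Type*} [Group G] (e : H →* G) (π : G →* H) (hπ : ∀ x, π (e x) = x) :
    ∃ U : Set H, U.Finite ∧ ∀ A : Set G, A.Finite →
      3 * A.ncard ≤ ((fun p : H × G => e p.1 * p.2) '' (U ×ˢ A)).ncard := by
  classical
  set c := max (max Ca Cb) B with hc
  have hca : Ca ≤ c := le_trans (le_max_left _ _) (le_max_left _ _)
  have hcb : Cb ≤ c := le_trans (le_max_right _ _) (le_max_left _ _)
  have hcB : B ≤ c := le_max_right _ _
  have hc0 : 0 ≤ c := le_trans ha.nonneg hca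
  obtain ⟨M, hM⟩ := exists_nat_gt (2 * (c + δ + 1))
  let t : Fin 4 → H := ![a ^ M, (a ^ M)⁻¹, b ^ M, (b ^ M)⁻¹]
  let σ : Fin 4 → Fin 4 := ![1, 0, 3, 2]
  have hσ : ∀ j, (t j)⁻¹ = t (σ j) := by
    intro j
    fin_cases j <;> simp [t, σ]
  have hσi : ∀ i j, i ≠ j → σ i ≠ σ j := by decide
  have hda : 2 * (c + δ + 1) < dist o (a ^ M • o) := lt_of_lt_of_le hM (ha.lower M)
  have hdb : 2 * (c + δ + 1) < dist o (b ^ M • o) := lt_of_lt_of_le hM (hb.lower M)
  have hlen : ∀ j, 2 * (c + δ + 1) < dist o (t j • o) := by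
    intro j
    fin_cases j
    · exact hda
    · change _ < dist o ((a ^ M)⁻¹ • o)
      rw [r1_dist_inv]; exact hda
    · exact hdb
    · change _ < dist o ((b ^ M)⁻¹ • o)
      rw [r1_dist_inv]; exact hdb
  have haa : gp o (a ^ M • o) ((a ^ M)⁻¹ • o) ≤ c := by
    have h1 := ha.turn (-(M : ℤ)) 0 M (by omega) (by omega)
    rw [zpow_zero, one_smul, zpow_neg, zpow_natCast] at h1
    rw [gp_comm]
    exact h1.trans hca
  have hbb : gp o (b ^ M • o) ((b ^ M)⁻¹ • o) ≤ c := by
    have h1 := hb.turn (-(M : ℤ)) 0 M (by omega) (by omega)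
    rw [zpow_zero, one_smul, zpow_neg, zpow_natCast] at h1
    rw [gp_comm]
    exact h1.trans hcb
  have h00 : gp o (a ^ M • o) (b ^ M • o) ≤ c := by
    have h1 := hab M M
    rw [zpow_natCast, zpow_natCast] at h1
    exact h1.trans hcB
  have h01 : gp o (a ^ M • o) ((b ^ M)⁻¹ • o) ≤ c := by
    have h1 := hab M (-(M : ℤ))
    rw [zpow_natCast, zpow_neg, zpow_natCast] at h1
    exact h1.trans hcB
  have h10 : gp o ((a ^ M)⁻¹ • o) (b ^ M • o) ≤ c := by
    have h1 := hab (-(M : ℤ)) M
    rw [zpow_neg, zpow_natCast, zpow_natCast] at h1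
    exact h1.trans hcB
  have h11 : gp o ((a ^ M)⁻¹ • o) ((b ^ M)⁻¹ • o) ≤ c := by
    have h1 := hab (-(M : ℤ)) (-(M : ℤ))
    rw [zpow_neg, zpow_natCast, zpow_neg, zpow_natCast] at h1
    exact h1.trans hcB
  have hgp : ∀ i j, i ≠ j → gp o (t i • o) (t j • o) ≤ c := by
    intro i j hij
    fin_cases i <;> fin_cases j <;>
      first
        | exact absurd rfl hij
        | exact haa
        | exact hbb
        | exact h00
        | exact h01
        | exact h10
        | exact h11
        | (rw [gp_comm]; first | exact haa | exact hbb | exact h00 | exact h01 | exact h10 | exact h11)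
  refine ⟨Set.range t, Set.finite_range t, fun A hA => ?_⟩
  let Rep : Fin 4 → G → Prop := fun j x => c + δ + 1 < gp o ((t j)⁻¹ • o) (π x • o)
  let Att : Fin 4 → G → Prop := fun j x => c + δ + 1 < gp o (t j • o) (π x • o)
  have hne : ∀ (u v z : Y), gp o u v ≤ c → c + δ + 1 < gp o u z → ¬ (c + δ + 1 < gp o v z) := by
    intro u v z h1 h2 h3
    have h4 := h o u z v
    rw [gp_comm o z v] at h4
    have h5 : c + δ + 1 < min (gp o u z) (gp o v z) := lt_min h2 h3
    linarith
  have key := r1_count (fun j => e (t j)) hA.toFinset Rep Att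
    (fun i j x hij h1 => by
      refine hne _ _ _ ?_ h1
      rw [hσ i, hσ j]
      exact hgp _ _ (hσi i j hij))
    (fun i j x hij h1 => hne _ _ _ (hgp i j hij) h1)
    (fun j x hx => by
      have h1 : ¬ (c + δ + 1 < gp o ((t j)⁻¹ • o) (π x • o)) := hx
      change c + δ + 1 < gp o (t j • o) (π (e (t j) * x) • o)
      rw [map_mul, hπ, mul_smul]
      have h2 := gp_add o (t j • o) (t j • π x • o)
      have h3 : gp (t j • o) o (t j • π x • o) = gp o ((t j)⁻¹ • o) (π x • o) := by
        rw [← r1_gp_smul (t j) o ((t j)⁻¹ • o) (π x • o), smul_inv_smul]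
      have h4 := hlen j
      rw [h3] at h2
      linarith [not_lt.1 h1])
  rw [Set.ncard_eq_toFinset_card A hA]
  refine key.trans ?_
  rw [← Set.ncard_coe_finset]
  refine Set.ncard_le_ncard ?_ (((Set.finite_range t).prod hA).image _)
  intro y hy
  rw [Finset.mem_coe, Finset.mem_biUnion] at hy
  obtain ⟨j, _, hy⟩ := hy
  rw [Finset.mem_image] at hy
  obtain ⟨x, hx, rfl⟩ := hy
  exact ⟨(t j, x), ⟨⟨j, rfl⟩, hA.mem_toFinset.1 (Finset.mem_filter.1 hx).1⟩, rfl⟩

end R1

end Pool.Agent.AcylTdc3
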