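import Pool.Agent.AcylTdc2.Geo

/-! Definitions for products of acylindrically hyperbolic groups. -/

open Filter Topology Set Pool.Agent.TwistedRatio Pool.Agent.AcylTdc

namespace Pool.Agent.AcylTdc3

/-- the values of a homomorphism on the initial parts of a word -/
def visited {G K : Type*} [Group G] [Group K] (π : G →* K) (l : List G) : Set K :=
  {a | ∃ i, i ≤ l.length ∧ a = π (l.take i).prod}

/-- number of elements of the ball with prescribed coordinates outside `I` -/
noncomputable def cnt {ι : Type*} {H : ι → Type*} [∀ i, Group (H i)] (X : Set (∀ i, H i))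
    (I : Finset ι) (u : ∀ i, H i) (s : ℕ) : ℕ :=
  {g : ∀ i, H i | g ∈ ball X s ∧ ∀ i, i ∉ I → g i = u i}.ncard

end Pool.Agent.AcylTdc3
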